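import Pool.Agent.W139.PX.D4
import Pool.Agent.W139.PX.F4
import Pool.Agent.W139.PX.E2

/-!
# Palindromes with free inner digits: all residue classes

Variants of `Pool.Agent.W261.PWBV.cnt_bound` and `Pool.Agent.W139.PX.bvW2` (same proofs) for an arbitrary residue
class.
-/

set_option autoImplicit false

namespace Pool.Agent.Y816.PS

open Finset Filter Topology Pool.Agent.Helper112 Pool.Agent.W89.PW Pool.Agent.W261.PWBV
open Pool.Agent.H39R3.PB (ph pts apts)
open Pool.Agent.H623R3.PBT8 (orth group coprime_pos)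
open Pool.Agent.W139.PX

/-- number of `m` with `pv m ≡ h` modulo `q` -/
noncomputable def cnth (b s t L q h : ℕ) : ℝ :=
  ((univ : Finset (Fin L → Fin s × Fin t)).filter (fun m => pv b s t L m ≡ h [MOD q])).card

/-- the error term -/
noncomputable def er (b L q : ℕ) : ℝ :=
  (b : ℝ) ^ L / q * ∑ d ∈ q.divisors.filter (fun d => 1 < d), U b b 1 L d

lemma er_nonneg (b L q : ℕ) : 0 ≤ er b L q := by
  unfold er
  exact mul_nonneg (by positivity) (sum_nonneg fun _ _ => U_nonneg _ _ _ _ _)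

/-- counting by exponential sums -/
theorem cnth_bound {s t : ℕ} (hs : 0 < s) (ht : 0 < t) (b L q h : ℕ) (hq : q.Coprime (2 * b)) :
    |cnth b s t L q h - ((s : ℝ) * t) ^ L / q| ≤
      ((s : ℝ) * t) ^ L / q * ∑ d ∈ q.divisors.filter (fun d => 1 < d), U b s t L d := by
  have hq0 := coprime_pos hq
  have hqr : (0 : ℝ) < q := by exact_mod_cast hq0
  have hqc : (q : ℂ) ≠ 0 := by exact_mod_cast hq0.ne'
  set T : ℕ → ℂ := fun a => ee (-((a : ℝ) * h / q)) * ∑ m : Fin L → Fin s × Fin t,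
    ee ((a : ℝ) / q * (pv b s t L m : ℝ)) with hT
  have h1 : (cnth b s t L q h : ℂ) = (1 / (q : ℂ)) * ∑ a ∈ range q, T a := by
    have h2 : (cnth b s t L q h : ℂ) = ∑ m : Fin L → Fin s × Fin t,
        (1 / (q : ℂ)) * ∑ a ∈ range q, ee ((a : ℝ) * ((((pv b s t L m : ℕ) : ℝ) - ((h : ℕ) : ℝ)) / q)) := by
      unfold cnth
      rw [Finset.card_filter]
      push_cast
      refine sum_congr rfl fun m _ => ?_
      have := orth hq0 (pv b s t L m) h
      push_cast at this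
      rw [this]
      by_cases hm : pv b s t L m ≡ h [MOD q]
      · rw [if_pos hm, if_pos hm]
        push_cast
        field_simp
      · rw [if_neg hm, if_neg hm]
        simp
    rw [h2, ← mul_sum, sum_comm]
    congr 1
    refine sum_congr rfl fun a _ => ?_
    simp only [hT]
    rw [mul_sum]
    refine sum_congr rfl fun m _ => ?_
    rw [← ls_ee_add]
    congr 1
    field_simp
    ring
  have hT0 : T 0 = ((s : ℂ) * t) ^ L := by
    simp only [hT]
    simp [ls_ee_zero]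
  have hTn : ∀ a, ‖T a‖ = ((s : ℝ) * t) ^ L * Fw b s t L L ((a : ℝ) / q) := by
    intro a
    simp only [hT]
    rw [norm_mul, norm_sum_pv hs ht, ls_norm_ee, one_mul]
  have h3 : (cnth b s t L q h : ℂ) - ((s : ℂ) * t) ^ L / q =
      (1 / (q : ℂ)) * ∑ a ∈ (range q).erase 0, T a := by
    rw [h1, ← Finset.add_sum_erase _ _ (mem_range.2 hq0), hT0]
    ring
  have h4 : |cnth b s t L q h - ((s : ℝ) * t) ^ L / q| ≤ (1 / (q : ℝ)) * ∑ a ∈ (range q).erase 0,
      ((s : ℝ) * t) ^ L * Fw b s t L L ((a : ℝ) / q) := by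
    have h5 : |cnth b s t L q h - ((s : ℝ) * t) ^ L / q| =
        ‖(cnth b s t L q h : ℂ) - ((s : ℂ) * t) ^ L / q‖ := by
      rw [← Real.norm_eq_abs, ← Complex.norm_real]
      push_cast
      rfl
    rw [h5, h3, norm_mul]
    have h6 : ‖(1 / (q : ℂ))‖ = 1 / (q : ℝ) := by simp
    rw [h6]
    refine mul_le_mul_of_nonneg_left ?_ (by positivity)
    refine (norm_sum_le _ _).trans (le_of_eq ?_)
    exact sum_congr rfl fun a _ => hTn a
  refine h4.trans (le_of_eq ?_)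
  rw [← mul_sum]
  have h7 : ∑ a ∈ (range q).erase 0, Fw b s t L L ((a : ℝ) / q) =
      ∑ d ∈ q.divisors.filter (fun d => 1 < d), U b s t L d := by
    have h8 := group hq0 (Fw b s t L L)
    rw [← Finset.add_sum_erase _ _ (mem_range.2 hq0)] at h8
    have h9 : q.divisors.filter (fun d => 1 < d) = q.divisors.erase 1 := by
      ext d
      rw [mem_filter, mem_erase, Nat.mem_divisors]
      constructor
      · rintro ⟨h1, h2⟩
        exact ⟨by omega, h1⟩
      · rintro ⟨h1, h2⟩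
        refine ⟨h2, ?_⟩
        have := Nat.pos_of_dvd_of_pos h2.1 hq0
        omega
    have h10 : (1 : ℕ) ∈ q.divisors := Nat.one_mem_divisors.2 hq0.ne'
    rw [← Finset.add_sum_erase _ _ h10] at h8
    have h11 : ∑ a ∈ (range 1).filter (fun a => a.Coprime 1), Fw b s t L L ((a : ℝ) / (1 : ℕ)) =
        Fw b s t L L (((0 : ℕ) : ℝ) / q) := by
      simp
    rw [h11] at h8
    rw [h9]
    unfold U
    linarith
  rw [h7]
  ring

/-- the sum of the error terms -/
theorem er_sum {b : ℕ} (hb : 2 ≤ b) (hP : PtW b b 1) {κ : ℝ} (hκ0 : 0 < κ)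
    (hκ1 : κ < 1) (hB : BigW b b 1 κ) (A : ℕ) : ∀ᶠ L : ℕ in atTop,
    ∑ q ∈ (Icc 1 ⌊(b : ℝ) ^ (κ * L)⌋₊).filter (fun q => q.Coprime (2 * b)),
      (q.divisors.card : ℝ) ^ 2 * er b L q ≤ (b : ℝ) ^ L / (L : ℝ) ^ A := by
  have hb0 : 0 < b := by omega
  have hbr : (0 : ℝ) < b := by exact_mod_cast hb0
  have hb1 : (1 : ℝ) ≤ b := by exact_mod_cast hb0
  filter_upwards [U_sum b b 1 (by omega) hP κ hκ0 hκ1 hB (A + 5),
    eventually_ge_atTop ((b + 1) ^ 4)] with L hL hLb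
  set D := ⌊(b : ℝ) ^ (κ * L)⌋₊ with hD
  have hLb' : ((b : ℝ) + 1) ^ 4 ≤ L := by exact_mod_cast hLb
  have hL1 : (1 : ℝ) ≤ L := by
    have : (1 : ℝ) ≤ ((b : ℝ) + 1) ^ 4 := one_le_pow₀ (by linarith)
    linarith
  have hL0 : (0 : ℝ) < L := by linarith
  have h2 := double b b 1 L D
  have h3 := Pool.Agent.H316R2.tau_sq_sum_le D
  have hlog : 1 + Real.log D ≤ (b + 1) * L := by
    rcases Nat.eq_zero_or_pos D with h0 | h0
    · rw [h0]
      simp only [Nat.cast_zero, Real.log_zero, add_zero]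
      nlinarith
    · have hDle : (D : ℝ) ≤ (b : ℝ) ^ (κ * L) := Nat.floor_le (by positivity)
      have hDle2 : (D : ℝ) ≤ (b : ℝ) ^ ((1 : ℝ) * L) := by
        refine hDle.trans (Real.rpow_le_rpow_of_exponent_le hb1 ?_)
        exact mul_le_mul_of_nonneg_right hκ1.le hL0.le
      have h4 : Real.log D ≤ (1 * L) * Real.log b := by
        rw [← Real.log_rpow hbr]
        exact Real.log_le_log (by exact_mod_cast h0) hDle2
      have h5 : Real.log b ≤ b - 1 := Real.log_le_sub_one_of_pos hbr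
      have h6 : (1 * L) * Real.log b ≤ (1 * L) * ((b : ℝ) - 1) :=
        mul_le_mul_of_nonneg_left h5 (by positivity)
      nlinarith [mul_pos hbr hL0]
  have hlog0 : 0 ≤ 1 + Real.log D := by
    have := Real.log_natCast_nonneg D
    linarith
  have h4 : ∑ e ∈ Icc 1 D, (e.divisors.card : ℝ) ^ 2 / e ≤ ((b : ℝ) + 1) ^ 4 * (L : ℝ) ^ 4 := by
    refine h3.trans ?_
    calc (1 + Real.log D) ^ 4 ≤ (((b : ℝ) + 1) * (L : ℝ)) ^ 4 := by gcongr
      _ = ((b : ℝ) + 1) ^ 4 * (L : ℝ) ^ 4 := by ring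
  have hX : ((b : ℝ) * (1 : ℕ)) ^ L = (b : ℝ) ^ L := by simp
  rw [hX] at h2
  refine (show _ = _ from rfl).trans_le (h2.trans ?_)
  have hS0 : 0 ≤ ∑ e ∈ Icc 1 D, (e.divisors.card : ℝ) ^ 2 / e :=
    sum_nonneg fun _ _ => by positivity
  calc (b : ℝ) ^ L * ((∑ d ∈ (Icc 2 D).filter (fun q => q.Coprime (2 * b)),
      (d.divisors.card : ℝ) ^ 2 * U b b 1 L d / d) *
        ∑ e ∈ Icc 1 D, (e.divisors.card : ℝ) ^ 2 / e)
      ≤ (b : ℝ) ^ L * ((1 / (L : ℝ) ^ (A + 5)) * (((b : ℝ) + 1) ^ 4 * (L : ℝ) ^ 4)) :=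
        mul_le_mul_of_nonneg_left (mul_le_mul hL h4 hS0 (by positivity)) (by positivity)
    _ ≤ (b : ℝ) ^ L / (L : ℝ) ^ A := by
        generalize ((b : ℝ) + 1) ^ 4 = B at hLb'
        have h5 : (1 / (L : ℝ) ^ (A + 5)) * (B * (L : ℝ) ^ 4) = B / L * (1 / (L : ℝ) ^ A) := by
          have hy : ((L : ℝ) ^ A) ≠ 0 := by positivity
          have hx : (L : ℝ) ≠ 0 := hL0.ne'
          rw [pow_add]
          generalize (L : ℝ) ^ A = y at hy
          generalize (L : ℝ) = x at hx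
          field_simp
        rw [h5]
        have h6 : B / (L : ℝ) ≤ 1 := by rw [div_le_one hL0]; exact hLb'
        have h7 : (0 : ℝ) < 1 / (L : ℝ) ^ A := by positivity
        calc (b : ℝ) ^ L * (B / L * (1 / (L : ℝ) ^ A))
            ≤ (b : ℝ) ^ L * (1 * (1 / (L : ℝ) ^ A)) := by gcongr
          _ = _ := by ring

/-- the error terms are small on average, every base -/
theorem er_final {b : ℕ} (hb : 2 ≤ b) (A : ℕ) : ∀ᶠ L : ℕ in atTop,
    ∑ q ∈ (Icc 1 ⌊(b : ℝ) ^ ((49 / 100 : ℝ) * L)⌋₊).filter (fun q => q.Coprime (2 * b)),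
      (q.divisors.card : ℝ) ^ 2 * er b L q ≤ (b : ℝ) ^ L / (L : ℝ) ^ A := by
  have hbR : (2 : ℝ) ≤ b := by exact_mod_cast hb
  have hb0 : (0 : ℝ) < b := by linarith
  set H : ℝ := Real.sqrt (1 / b) with hH
  have hH0 : 0 < H := Real.sqrt_pos.2 (by positivity)
  have hH2 : H ^ 2 = 1 / b := Real.sq_sqrt (by positivity)
  have hb1 : 1 / (b : ℝ) ≤ 1 := by
    rw [div_le_one hb0]
    linarith
  have hH1 : H ≤ 1 := by
    by_contra hcon
    push Not at hcon
    have h1 : 1 < H ^ 2 := one_lt_pow₀ hcon two_ne_zero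
    linarith
  have hHb : 1 ≤ b * H := by
    have h1 : (b : ℝ) * H ^ 2 = 1 := by
      rw [hH2]
      field_simp
    have h2 : H ^ 2 ≤ H := by nlinarith
    have h3 : (b : ℝ) * H ^ 2 ≤ b * H := mul_le_mul_of_nonneg_left h2 hb0.le
    linarith
  have hMaj : MajP b b 1 H (1 / H ^ 3) := majP_alt hb (by omega) le_rfl le_rfl (by omega) hH0 hH1 (by
    rw [hH2, Nat.cast_one, mul_one])
  have hκ : (b : ℝ) ^ (49 / 100 : ℝ) * H < 1 := by
    rw [hH, Real.sqrt_eq_rpow, one_div, Real.inv_rpow hb0.le]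
    rw [← div_eq_mul_inv, div_lt_one (by positivity)]
    exact Real.rpow_lt_rpow_of_exponent_lt (by linarith) (by norm_num)
  have hPt : PtW b b 1 := Pool.Agent.W571.PW.Pt.main b b 1 hb hb le_rfl rfl
  have hBig : BigW b b 1 (49 / 100) := bigW_of_majP hb (by omega) le_rfl rfl (m4_unif hb) hMaj hH0 hHb
    (by positivity) (by norm_num) hκ
  exact er_sum hb hPt (by norm_num) (by norm_num) hBig A

end Pool.Agent.Y816.PS
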