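import Pool.Agent.W89.PW.Defs

/-!
# Palindromes with prescribed outer digits and free inner digits
-/

set_option autoImplicit false

namespace Pool.Agent.Y816.PS

open Finset Pool.Agent.W89.PW

lemma ofDigits_map (b : ℕ) (f : ℕ → ℕ) (k : ℕ) :
    Nat.ofDigits b ((List.range k).map f) = ∑ i ∈ range k, f i * b ^ i := by
  induction k with
  | zero => simp
  | succ k ih =>
    rw [List.range_succ, List.map_append, Nat.ofDigits_append, ih, sum_range_succ]
    simp [mul_comm]

lemma sum_lt {b : ℕ} {f : ℕ → ℕ} (hf : ∀ i, f i < b) (k : ℕ) :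
    ∑ i ∈ range k, f i * b ^ i < b ^ k := by
  induction k with
  | zero => simp
  | succ k ih =>
    rw [sum_range_succ, pow_succ]
    have h1 : f k + 1 ≤ b := hf k
    have h2 : (f k + 1) * b ^ k ≤ b * b ^ k := Nat.mul_le_mul_right _ h1
    nlinarith

lemma sum_dig (b y k : ℕ) : ∑ j ∈ range k, (y / b ^ j % b) * b ^ j = y % b ^ k := by
  induction k with
  | zero => simp [Nat.mod_one]
  | succ k ih =>
    rw [sum_range_succ, ih, Nat.mod_pow_succ, mul_comm (b ^ k)]

/-- the palindrome with `2 N + 1` digits whose digit at distance `j` from the middle is `a j` -/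
def pal (b N : ℕ) (a : ℕ → ℕ) : ℕ := ∑ i ∈ range (2 * N + 1), a ((N - i) + (i - N)) * b ^ i

lemma pal_digits {b N : ℕ} (hb : 2 ≤ b) {a : ℕ → ℕ} (ha : ∀ i, a i < b) (h0 : a N ≠ 0) :
    Nat.digits b (pal b N a) = (List.range (2 * N + 1)).map (fun i => a ((N - i) + (i - N))) := by
  unfold pal
  rw [← ofDigits_map b (fun i => a ((N - i) + (i - N)))]
  apply Nat.digits_ofDigits b (by omega)
  · intro l hl
    rw [List.mem_map] at hl
    obtain ⟨i, _, rfl⟩ := hl
    exact ha _
  · intro h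
    rw [List.getLast_eq_getElem]
    simp only [List.getElem_map, List.getElem_range, List.length_map, List.length_range]
    have : N - (2 * N + 1 - 1) + (2 * N + 1 - 1 - N) = N := by omega
    rw [this]
    exact h0

lemma pal_reverse {b N : ℕ} (hb : 2 ≤ b) {a : ℕ → ℕ} (ha : ∀ i, a i < b) (h0 : a N ≠ 0) :
    (Nat.digits b (pal b N a)).reverse = Nat.digits b (pal b N a) := by
  rw [pal_digits hb ha h0]
  apply List.ext_getElem
  · simp
  · intro i h1 h2
    simp only [List.length_map, List.length_range] at h2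
    simp only [List.getElem_reverse, List.getElem_map, List.getElem_range, List.length_map,
      List.length_range]
    congr 1
    omega

lemma pal_eq (b N : ℕ) (a : ℕ → ℕ) : pal b N a =
    a 0 * b ^ N + ∑ c ∈ range N, a (c + 1) * (b ^ (N + c + 1) + b ^ (N - 1 - c)) := by
  unfold pal
  rw [show 2 * N + 1 = N + (N + 1) by ring, sum_range_add, sum_range_succ', ← sum_range_reflect]
  have h1 : ∀ j ∈ range N, a (N - (N - 1 - j) + (N - 1 - j - N)) * b ^ (N - 1 - j) =
      a (j + 1) * b ^ (N - 1 - j) := by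
    intro j hj
    rw [mem_range] at hj
    rw [show N - (N - 1 - j) + (N - 1 - j - N) = j + 1 by omega]
  have h2 : ∀ j ∈ range N, a (N - (N + (j + 1)) + (N + (j + 1) - N)) * b ^ (N + (j + 1)) =
      a (j + 1) * b ^ (N + j + 1) := by
    intro j hj
    rw [show N - (N + (j + 1)) + (N + (j + 1) - N) = j + 1 by omega,
      show N + (j + 1) = N + j + 1 by ring]
  rw [sum_congr rfl h1, sum_congr rfl h2]
  have h3 : N - (N + 0) + (N + 0 - N) = 0 := by omega
  rw [h3, add_zero]
  simp only [mul_add, sum_add_distrib]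
  ring

/-- digits: `1` in the middle, the free digits `m`, and then the digits of `x` -/
def av (b N L x : ℕ) (m : Fin L → Fin b × Fin 1) (j : ℕ) : ℕ :=
  if j = 0 then 1 else if h : j - 1 < L then ((m ⟨j - 1, h⟩).1 : ℕ) + ((m ⟨j - 1, h⟩).2 : ℕ)
    else x / b ^ (N + j) % b

lemma av_lt {b : ℕ} (hb : 2 ≤ b) (N L x : ℕ) (m : Fin L → Fin b × Fin 1) (j : ℕ) : av b N L x m j < b := by
  unfold av
  split_ifs with h1 h2
  · omega
  · have h3 := (m ⟨j - 1, h2⟩).1.isLt
    have h4 := (m ⟨j - 1, h2⟩).2.isLt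
    omega
  · exact Nat.mod_lt _ (by omega)

lemma av_out {b N L x : ℕ} (m : Fin L → Fin b × Fin 1) {j : ℕ} (hj : L < j) :
    av b N L x m j = x / b ^ (N + j) % b := by
  unfold av
  rw [if_neg (by omega), dif_neg (by omega)]

/-- the palindrome -/
def VV (b N L x : ℕ) (m : Fin L → Fin b × Fin 1) : ℕ := pal b N (av b N L x m)

/-- the fixed part -/
def n0 (b N L x : ℕ) : ℕ := b ^ N + ∑ c ∈ Ico L N, (x / b ^ (N + (c + 1)) % b) * (b ^ (N + c + 1) + b ^ (N - 1 - c))

/-- the free part -/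
def sg (b L : ℕ) (m : Fin L → Fin b × Fin 1) : ℕ := ∑ c : Fin L, (((m c).1 : ℕ) + ((m c).2 : ℕ)) * fr b L c

lemma pv_sg (b L : ℕ) (m : Fin L → Fin b × Fin 1) :
    pv b b 1 L m = b ^ (2 * L + 2) + b ^ (L + 1) + 1 + sg b L m := rfl

lemma VV_eq {b N L : ℕ} (x : ℕ) (h : L + 1 ≤ N) (m : Fin L → Fin b × Fin 1) :
    VV b N L x m = n0 b N L x + b ^ (N - L - 1) * sg b L m := by
  unfold VV n0 sg
  rw [pal_eq, ← sum_range_add_sum_Ico _ (show L ≤ N by omega)]
  have h1 : av b N L x m 0 = 1 := by simp [av]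
  have h2 : ∑ c ∈ range L, av b N L x m (c + 1) * (b ^ (N + c + 1) + b ^ (N - 1 - c)) =
      b ^ (N - L - 1) * ∑ c : Fin L, (((m c).1 : ℕ) + ((m c).2 : ℕ)) * fr b L c := by
    rw [Finset.sum_range, mul_sum]
    refine sum_congr rfl fun c _ => ?_
    have h3 : av b N L x m ((c : ℕ) + 1) = ((m c).1 : ℕ) + ((m c).2 : ℕ) := by
      unfold av
      rw [if_neg (by omega), dif_pos (by simp)]
      rfl
    have hc := c.isLt
    rw [h3]
    unfold fr
    have h4 : b ^ (N + (c : ℕ) + 1) = b ^ (N - L - 1) * b ^ (L + (c : ℕ) + 2) := by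
      rw [← pow_add]
      congr 1
      omega
    have h5 : b ^ (N - 1 - (c : ℕ)) = b ^ (N - L - 1) * b ^ (L - (c : ℕ)) := by
      rw [← pow_add]
      congr 1
      omega
    rw [h4, h5]
    ring
  have h3 : ∀ c ∈ Ico L N, av b N L x m (c + 1) * (b ^ (N + c + 1) + b ^ (N - 1 - c)) =
      (x / b ^ (N + (c + 1)) % b) * (b ^ (N + c + 1) + b ^ (N - 1 - c)) := by
    intro c hc
    rw [mem_Ico] at hc
    rw [av_out m (by omega)]
  rw [h1, h2, sum_congr rfl h3]
  ring

lemma VV_lt {b N L x : ℕ} (hb : 2 ≤ b) (m : Fin L → Fin b × Fin 1) : VV b N L x m < b ^ (2 * N + 1) := by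
  unfold VV pal
  exact sum_lt (fun i => av_lt hb _ _ _ _ _) _

lemma top_digit {b N x : ℕ} (hb : 2 ≤ b) (hx : x < b ^ (2 * N + 1)) : x / b ^ (N + N) % b = x / b ^ (2 * N) := by
  rw [show N + N = 2 * N by ring]
  apply Nat.mod_eq_of_lt
  rw [Nat.div_lt_iff_lt_mul (by positivity)]
  rw [pow_succ] at hx
  linarith

lemma VV_pal {b N L x : ℕ} (hb : 2 ≤ b) (h : L + 1 ≤ N) (hx : x < b ^ (2 * N + 1)) (h0 : b ^ (2 * N) ≤ x)
    (m : Fin L → Fin b × Fin 1) : (Nat.digits b (VV b N L x m)).reverse = Nat.digits b (VV b N L x m) := by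
  refine pal_reverse hb (fun i => av_lt hb _ _ _ _ _) ?_
  rw [av_out m (by omega), top_digit hb hx]
  have : 0 < x / b ^ (2 * N) := Nat.div_pos h0 (by positivity)
  omega

lemma VV_div {b N L x : ℕ} (hb : 2 ≤ b) (h : L + 1 ≤ N) (hx : x < b ^ (2 * N + 1))
    (m : Fin L → Fin b × Fin 1) : VV b N L x m / b ^ (N + L + 1) = x / b ^ (N + L + 1) := by
  unfold VV pal
  rw [show 2 * N + 1 = (N + L + 1) + (N - L) by omega, sum_range_add]
  have h1 : ∀ j ∈ range (N - L), av b N L x m (N - (N + L + 1 + j) + (N + L + 1 + j - N)) *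
      b ^ (N + L + 1 + j) = b ^ (N + L + 1) * ((x / b ^ (N + L + 1) / b ^ j % b) * b ^ j) := by
    intro j _
    rw [show N - (N + L + 1 + j) + (N + L + 1 + j - N) = L + 1 + j by omega, av_out m (by omega),
      show N + (L + 1 + j) = N + L + 1 + j by ring, Nat.div_div_eq_div_mul, ← pow_add, pow_add b (N + L + 1) j]
    ring
  rw [sum_congr rfl h1, ← mul_sum, sum_dig]
  have h2 : x / b ^ (N + L + 1) < b ^ (N - L) := by
    rw [Nat.div_lt_iff_lt_mul (by positivity), ← pow_add]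
    rwa [show N - L + (N + L + 1) = 2 * N + 1 by omega]
  rw [Nat.mod_eq_of_lt h2]
  have h3 := sum_lt (b := b) (f := fun i => av b N L x m ((N - i) + (i - N)))
    (fun i => av_lt hb _ _ _ _ _) (N + L + 1)
  rw [Nat.add_mul_div_left _ _ (by positivity), Nat.div_eq_of_lt h3, zero_add]

lemma VV_cop {b N L x : ℕ} (hb : 2 ≤ b) (h : L + 1 ≤ N) (hx : x < b ^ (2 * N + 1))
    (hc : (x / b ^ (2 * N)).Coprime b) (m : Fin L → Fin b × Fin 1) : (VV b N L x m).Coprime (2 * b) := by
  have hcb : (VV b N L x m).Coprime b := by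
    unfold VV pal
    rw [sum_range_succ']
    have h1 : N - 0 + (0 - N) = N := by omega
    rw [h1, av_out m (by omega), top_digit hb hx, pow_zero, mul_one]
    have h2 : b ∣ ∑ k ∈ range (2 * N), av b N L x m (N - (k + 1) + (k + 1 - N)) * b ^ (k + 1) :=
      dvd_sum fun k _ => dvd_mul_of_dvd_right (dvd_pow_self b (by omega)) _
    obtain ⟨k, hk⟩ := h2
    rw [hk, Nat.coprime_mul_left_add_left]
    exact hc
  refine Nat.Coprime.mul_right ?_ hcb
  rcases Nat.even_or_odd b with he | ho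
  · exact Nat.Coprime.coprime_dvd_right he.two_dvd hcb
  · have h1 : Odd (VV b N L x m) := by
      unfold VV
      rw [pal_eq]
      apply Odd.add_even
      · have : av b N L x m 0 = 1 := by simp [av]
        rw [this, one_mul]
        exact ho.pow
      · apply Finset.even_sum
        intro c _
        exact Even.mul_left (ho.pow.add_odd ho.pow) _
    exact Nat.Coprime.symm (Nat.coprime_two_left.2 h1)

/-- divisibility of the palindrome is a residue class for `pv` -/
lemma VV_dvd {b N L x q : ℕ} (h : L + 1 ≤ N) (hq : q.Coprime (2 * b)) (hq0 : 0 < q) :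
    ∃ r : ℕ, ∀ m : Fin L → Fin b × Fin 1, q ∣ VV b N L x m ↔ pv b b 1 L m ≡ r [MOD q] := by
  have : NeZero q := ⟨hq0.ne'⟩
  have hB : (b ^ (N - L - 1)).Coprime q := (Nat.Coprime.pow_right _ (Nat.Coprime.coprime_mul_left_right hq)).symm
  have hu := ZMod.coe_mul_inv_eq_one _ hB
  obtain ⟨u, hu'⟩ : ∃ u : ZMod q, u = (((b ^ (N - L - 1) : ℕ) : ZMod q))⁻¹ := ⟨_, rfl⟩
  rw [← hu'] at hu
  obtain ⟨B, hBd⟩ : ∃ B : ZMod q, B = ((b ^ (N - L - 1) : ℕ) : ZMod q) := ⟨_, rfl⟩
  rw [← hBd] at hu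
  obtain ⟨C, hC⟩ : ∃ C : ℕ, C = b ^ (2 * L + 2) + b ^ (L + 1) + 1 := ⟨_, rfl⟩
  refine ⟨((C : ZMod q) - n0 b N L x * u).val, fun m => ?_⟩
  rw [← ZMod.natCast_eq_natCast_iff, ZMod.natCast_val, ZMod.cast_id, pv_sg, VV_eq x h, ← hC,
    ← ZMod.natCast_eq_zero_iff]
  push_cast [← hBd]
  constructor
  · intro h1
    have h2 : (sg b L m : ZMod q) = - (n0 b N L x * u) := by
      have h3 : B * (sg b L m : ZMod q) = - n0 b N L x := by
        rw [eq_neg_iff_add_eq_zero, add_comm]
        exact h1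
      calc (sg b L m : ZMod q) = (B * u) * sg b L m := by rw [hu, one_mul]
        _ = u * (B * sg b L m) := by ring
        _ = _ := by rw [h3]; ring
    rw [h2]
    ring
  · intro h1
    have h2 : (sg b L m : ZMod q) = - (n0 b N L x * u) := by
      have h3 : (sg b L m : ZMod q) = (C : ZMod q) + sg b L m - C := by ring
      rw [h3, h1]
      ring
    rw [h2]
    calc (n0 b N L x : ZMod q) + B * -(n0 b N L x * u) = n0 b N L x - n0 b N L x * (B * u) := by ring
      _ = 0 := by rw [hu]; ring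

end Pool.Agent.Y816.PS
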