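import Pool.Agent.Y816.PS.A
import Pool.Agent.Y816.PS.B

/-!
# Palindromes with prescribed outer digits and few prime factors
-/

set_option autoImplicit false

namespace Pool.Agent.Y816.PS

open Finset Filter Topology Pool.Agent.W89.PW Pool.Agent.W139.PX
open Pool.Agent.W89.Sv (PP PZ VZ rem wt En weighted_sieve V_lim cV cV_pos mem_PP dvd_PZ)
open Pool.Agent.H623R3.PBT8 (coprime_pos)

lemma wt_zero (m z n : ℕ) : wt m z 0 n = 1 := by unfold wt; simp

lemma rem_VV {b N L x q : ℕ} (hb : 2 ≤ b) (h : L + 1 ≤ N) (hq : q.Coprime (2 * b)) :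
    |rem (univ : Finset (Fin L → Fin b × Fin 1)) (VV b N L x) ((b : ℝ) ^ L) q| ≤ er b L q := by
  have hq0 : 0 < q := coprime_pos hq
  obtain ⟨r, hr⟩ := VV_dvd (x := x) h hq hq0
  have h1 := cnth_bound (s := b) (t := 1) (by omega) one_pos b L q r hq
  have h2 : ((b : ℝ) * (1 : ℕ)) ^ L = (b : ℝ) ^ L := by simp
  rw [h2] at h1
  unfold rem er
  have h3 : ((univ : Finset (Fin L → Fin b × Fin 1)).filter (fun i => q ∣ VV b N L x i)) =
      univ.filter (fun m => pv b b 1 L m ≡ r [MOD q]) := filter_congr (fun m _ => hr m)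
  rw [h3]
  exact h1

theorem lower {b : ℕ} (hb : 2 ≤ b) : ∃ c : ℝ, 0 < c ∧ ∃ L0 : ℕ, ∀ L N x : ℕ, L0 ≤ L → L + 1 ≤ N →
    c * (b : ℝ) ^ L / L ≤ (((univ : Finset (Fin L → Fin b × Fin 1)).filter
      (fun m => (VV b N L x m).Coprime (PZ (2 * b) (zz b (49 / 100) L)))).card : ℝ) := by
  classical
  obtain ⟨δ, hδ0, z0, hsieve⟩ := weighted_sieve (2 * b) (by omega) (dvd_mul_right 2 b) (lam := 0) le_rfl
    zero_le_one (by norm_num)
  have hbR : (2 : ℝ) ≤ b := by exact_mod_cast hb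
  have hlb0 : 0 < Real.log b := Real.log_pos (by linarith)
  obtain ⟨κ, hκ⟩ : ∃ κ : ℝ, κ = 49 / 100 := ⟨_, rfl⟩
  have hκ0 : 0 < κ := by rw [hκ]; norm_num
  have hκ1 : κ < 1 := by rw [hκ]; norm_num
  rw [← hκ]
  set K : ℝ := cV (2 * b) with hK
  have hK0 : 0 < K := cV_pos _
  set c : ℝ := δ * K / (8 * Real.log b) with hc
  have hc0 : 0 < c := by positivity
  refine ⟨c, hc0, ?_⟩
  have e1 : ∀ᶠ L : ℕ in atTop, K / 2 < VZ (2 * b) (zz b κ L) * Real.log (zz b κ L : ℝ) :=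
    ((V_lim (2 * b) (by omega)).comp (tendsto_zz (by omega) hκ0)).eventually_const_lt (by linarith)
  have e2 : ∀ᶠ L : ℕ in atTop, max z0 2 ≤ zz b κ L := (tendsto_zz (by omega) hκ0).eventually_ge_atTop _
  have e3 := er_final hb 3
  rw [← hκ] at e3
  have e5 : ∀ᶠ L : ℕ in atTop, 16 * Real.log b / (δ * K) + 1 ≤ (L : ℝ) :=
    tendsto_natCast_atTop_atTop.eventually_ge_atTop _
  obtain ⟨L0, hL0'⟩ := eventually_atTop.1 (e1.and (e2.and (e3.and e5)))
  refine ⟨L0, fun L N x hL hN => ?_⟩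
  obtain ⟨h1, h2, h3, h5⟩ := hL0' L hL
  have hL1 : (1 : ℝ) ≤ L := by
    have : 0 ≤ 16 * Real.log b / (δ * K) := by positivity
    linarith
  have hL0 : (0 : ℝ) < L := by linarith
  set z := zz b κ L with hz
  have hz0 : z0 ≤ z := (le_max_left _ _).trans h2
  have hz2 : 2 ≤ z := (le_max_right _ _).trans h2
  have hzR : (2 : ℝ) ≤ z := by exact_mod_cast hz2
  have hzle : (z : ℝ) ≤ (b : ℝ) ^ (κ * L * (2 / 11)) := zz_le b κ L
  have hzD : (z : ℝ) ^ (11 / 2 : ℝ) ≤ (b : ℝ) ^ (κ * L) := zz_pow_le κ L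
  have hlogz : Real.log z ≤ L * Real.log b := by
    have h8 := Real.log_le_log (by linarith) hzle
    rw [Real.log_rpow (by linarith)] at h8
    refine h8.trans ?_
    apply mul_le_mul_of_nonneg_right _ hlb0.le
    have : κ * L * (2 / 11) ≤ 1 * L * 1 := by
      apply mul_le_mul _ (by norm_num) (by norm_num) (by positivity)
      exact mul_le_mul_of_nonneg_right hκ1.le hL0.le
    linarith
  have hVpos : 0 < VZ (2 * b) z := Pool.Agent.W89.Sv.VZ_pos _ _
  have hVL : K / (2 * (L * Real.log b)) ≤ VZ (2 * b) z := by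
    rw [div_le_iff₀ (by positivity)]
    have h8 := mul_le_mul_of_nonneg_left hlogz hVpos.le
    linarith
  set X : ℝ := (b : ℝ) ^ L with hX
  have hX0 : 0 < X := by positivity
  have hS := hsieve z hz0 (Fin L → Fin b × Fin 1) univ (VV b N L x) X hX0.le
  have hRem : ∑ q ∈ (Icc 1 ⌊(z : ℝ) ^ (11 / 2 : ℝ)⌋₊).filter (fun q => q.Coprime (2 * b)),
      (q.divisors.card : ℝ) ^ 2 * |rem (univ : Finset (Fin L → Fin b × Fin 1)) (VV b N L x) X q| ≤
      X / (L : ℝ) ^ 3 := by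
    refine le_trans ?_ h3
    have hsub : (Icc 1 ⌊(z : ℝ) ^ (11 / 2 : ℝ)⌋₊).filter (fun q => q.Coprime (2 * b)) ⊆
        (Icc 1 ⌊(b : ℝ) ^ (κ * L)⌋₊).filter (fun q => q.Coprime (2 * b)) := by
      intro q hq
      rw [mem_filter, mem_Icc] at hq ⊢
      exact ⟨⟨hq.1.1, hq.1.2.trans (Nat.floor_le_floor hzD)⟩, hq.2⟩
    refine le_trans (sum_le_sum_of_subset_of_nonneg hsub fun _ _ _ => by positivity) (sum_le_sum fun q hq => ?_)
    exact mul_le_mul_of_nonneg_left (rem_VV hb hN (mem_filter.1 hq).2) (by positivity)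
  have hcard : ∑ i ∈ (univ : Finset (Fin L → Fin b × Fin 1)).filter
      (fun i => (VV b N L x i).Coprime (PZ (2 * b) z)), wt (2 * b) z 0 (VV b N L x i) =
      (((univ : Finset (Fin L → Fin b × Fin 1)).filter
      (fun m => (VV b N L x m).Coprime (PZ (2 * b) z))).card : ℝ) := by
    simp only [wt_zero]
    rw [sum_const, nsmul_eq_mul, mul_one]
  rw [hcard] at hS
  have h8 : δ * (X * (K / (2 * (L * Real.log b)))) ≤ δ * (X * VZ (2 * b) z) := by gcongr
  have h9 : δ * (X * (K / (2 * (L * Real.log b)))) = 4 * c * X / L := by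
    rw [hc]; field_simp; ring
  have h10 : X / (L : ℝ) ^ 3 ≤ c * X / L := by
    rw [div_le_div_iff₀ (by positivity) hL0]
    have h11 : 16 * Real.log b / (δ * K) ≤ L := by linarith
    rw [div_le_iff₀ (by positivity)] at h11
    have h12 : 1 ≤ c * L := by
      rw [hc, div_mul_eq_mul_div, one_le_div (by positivity)]
      nlinarith
    have h13 : 1 ≤ c * L ^ 2 := by
      have : c * L ≤ c * L ^ 2 := by
        rw [sq]
        nlinarith [mul_nonneg hc0.le hL0.le]
      linarith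
    calc X * L = X * L * 1 := by ring
      _ ≤ X * L * (c * L ^ 2) := by gcongr
      _ = _ := by ring
  have h14 : 4 * c * X / L - c * X / L = 3 * (c * X / L) := by ring
  have h15 : 0 ≤ c * X / L := by positivity
  linarith

/-- the palindromes coprime to `P(z)` have few prime factors -/
lemma few {b L N n z : ℕ} (hb : 2 ≤ b) (h1 : 0 < n) (h2 : n < b ^ (2 * N + 1))
    (hc : n.Coprime (2 * b)) (hs : n.Coprime (PZ (2 * b) z)) (hz : b ^ L < z ^ 12) :
    (∀ p ∈ n.primeFactorsList, b ^ L < p ^ 12) ∧ n.primeFactorsList.length * L < 12 * (2 * N + 1) := by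
  have hp : ∀ p ∈ n.primeFactorsList, b ^ L < p ^ 12 := by
    intro p hp
    have hpp := Nat.prime_of_mem_primeFactorsList hp
    have hpn := Nat.dvd_of_mem_primeFactorsList hp
    have hzp : z ≤ p := by
      by_contra hcon
      push Not at hcon
      have h3 : ¬ p ∣ 2 * b := by
        intro h4
        have h5 := Nat.Coprime.eq_one_of_dvd (hc.coprime_dvd_left hpn) h4
        exact hpp.one_lt.ne' h5
      have h4 : p ∣ PZ (2 * b) z := by
        unfold PZ
        exact dvd_prod_of_mem (fun p => p) (mem_PP.2 ⟨hcon, hpp, h3⟩)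
      have h5 := Nat.Coprime.eq_one_of_dvd (hs.coprime_dvd_left hpn) h4
      exact hpp.one_lt.ne' h5
    exact hz.trans_le (Nat.pow_le_pow_left hzp 12)
  refine ⟨hp, ?_⟩
  have h3 : ∀ l : List ℕ, (∀ p ∈ l, b ^ L < p ^ 12) → (b ^ L) ^ l.length ≤ l.prod ^ 12 := by
    intro l
    induction l with
    | nil => intro _; simp
    | cons p l ih =>
      intro h
      rw [List.length_cons, List.prod_cons, pow_succ, mul_pow, mul_comm]
      exact Nat.mul_le_mul (h p (by simp)).le (ih fun q hq => h q (by simp [hq]))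
  have h4 := h3 _ hp
  rw [Nat.prod_primeFactorsList h1.ne', ← pow_mul] at h4
  have h5 : n ^ 12 < (b ^ (2 * N + 1)) ^ 12 := Nat.pow_lt_pow_left h2 (by norm_num)
  rw [← pow_mul] at h5
  have h6 := (Nat.pow_lt_pow_iff_right (by omega : 1 < b)).1 (h4.trans_lt h5)
  nlinarith

/-- **Palindromes with prescribed outer digits and few prime factors.** -/
theorem palshort {b : ℕ} (hb : 2 ≤ b) : ∃ c : ℝ, 0 < c ∧ ∃ L₀ : ℕ, ∀ L N x : ℕ, L₀ ≤ L → L < N →
    b ^ (2 * N) ≤ x → x < b ^ (2 * N + 1) → (x / b ^ (2 * N)).Coprime b →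
    c * (b : ℝ) ^ L / L ≤ (((range (b ^ (2 * N + 1))).filter (fun n =>
      (Nat.digits b n).reverse = Nat.digits b n ∧ n / b ^ (N + L + 1) = x / b ^ (N + L + 1) ∧
      (∀ p ∈ n.primeFactorsList, b ^ L < p ^ 12) ∧
      n.primeFactorsList.length * L < 12 * (2 * N + 1))).card : ℝ) := by
  classical
  obtain ⟨c, hc, L0, h⟩ := lower hb
  have hbR : (2 : ℝ) ≤ b := by exact_mod_cast hb
  have e1 : ∀ᶠ L : ℕ in atTop, (2 : ℝ) ≤ (b : ℝ) ^ ((49 / 550 - 1 / 12 : ℝ) * L) :=
    (tendsto_bpow hb (by norm_num)).eventually_ge_atTop 2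
  have e2 : ∀ᶠ L : ℕ in atTop, 1 ≤ L := eventually_ge_atTop 1
  obtain ⟨L1, hL1⟩ := eventually_atTop.1 (e1.and e2)
  refine ⟨c, hc, max L0 L1, fun L N x hL hN h1 h2 h3 => ?_⟩
  obtain ⟨h4, h5⟩ := hL1 L ((le_max_right _ _).trans hL)
  refine (h L N x ((le_max_left _ _).trans hL) hN).trans ?_
  have hz : b ^ L < (zz b (49 / 100) L) ^ 12 := by
    have h6 : (b : ℝ) ^ ((49 / 100 : ℝ) * L * (2 / 11)) < zz b (49 / 100) L + 1 := Nat.lt_floor_add_one _
    have h7 : (b : ℝ) ^ ((49 / 100 : ℝ) * L * (2 / 11)) =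
        (b : ℝ) ^ ((1 / 12 : ℝ) * L) * (b : ℝ) ^ ((49 / 550 - 1 / 12 : ℝ) * L) := by
      rw [← Real.rpow_add (by linarith)]
      congr 1
      ring
    have h8 : (1 : ℝ) < (b : ℝ) ^ ((1 / 12 : ℝ) * L) := by
      apply Real.one_lt_rpow (by linarith)
      have : (1 : ℝ) ≤ L := by exact_mod_cast h5
      positivity
    have h9 : (b : ℝ) ^ ((1 / 12 : ℝ) * L) < zz b (49 / 100) L := by nlinarith
    have h10 : ((b : ℝ) ^ ((1 / 12 : ℝ) * L)) ^ 12 < ((zz b (49 / 100) L : ℕ) : ℝ) ^ 12 :=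
      pow_lt_pow_left₀ h9 (by linarith) (by norm_num)
    have h11 : ((b : ℝ) ^ ((1 / 12 : ℝ) * L)) ^ 12 = (b : ℝ) ^ L := by
      rw [← Real.rpow_natCast, ← Real.rpow_mul (by linarith), ← Real.rpow_natCast]
      congr 1
      push_cast
      ring
    rw [h11] at h10
    exact_mod_cast h10
  have hinj : Function.Injective (VV b N L x) := by
    intro m m' hm
    rw [VV_eq x hN, VV_eq x hN] at hm
    have h6 : sg b L m = sg b L m' :=
      Nat.eq_of_mul_eq_mul_left (by positivity) (Nat.add_left_cancel hm)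
    apply pv_inj_unif hb
    rw [pv_sg, pv_sg, h6]
  have hle : ((univ : Finset (Fin L → Fin b × Fin 1)).filter
      (fun m => (VV b N L x m).Coprime (PZ (2 * b) (zz b (49 / 100) L)))).card ≤
      ((range (b ^ (2 * N + 1))).filter (fun n =>
      (Nat.digits b n).reverse = Nat.digits b n ∧ n / b ^ (N + L + 1) = x / b ^ (N + L + 1) ∧
      (∀ p ∈ n.primeFactorsList, b ^ L < p ^ 12) ∧
      n.primeFactorsList.length * L < 12 * (2 * N + 1))).card := by
    apply Finset.card_le_card_of_injOn (VV b N L x)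
    · intro m hm
      rw [mem_coe, mem_filter] at hm
      rw [mem_coe, mem_filter, mem_range]
      have hcop := VV_cop hb hN h2 h3 m
      obtain ⟨f1, f2⟩ := few hb (coprime_pos hcop) (VV_lt hb m) hcop hm.2 hz
      exact ⟨VV_lt hb m, VV_pal hb hN h2 h1 m, VV_div hb hN h2 m, f1, f2⟩
    · exact hinj.injOn
  exact_mod_cast hle

end Pool.Agent.Y816.PS
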