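import Pool.Agent.Y816.PS.C

/-!
# Almost prime palindromes in short intervals
-/

set_option autoImplicit false

namespace Pool.Agent.Y816.PS

open Finset Filter Topology

/-- interval form of `palshort` -/
theorem palint {b : ℕ} (hb : 2 ≤ b) (δ : ℝ) (hδ : 0 < δ) (hδ1 : δ ≤ 1) : ∃ c : ℝ, 0 < c ∧ ∃ N₀ : ℕ,
    ∀ N x : ℕ, N₀ ≤ N → b ^ (2 * N) ≤ x → x < b ^ (2 * N + 1) → (x / b ^ (2 * N)).Coprime b →
    c * (b : ℝ) ^ (δ * N) / N ≤ (((range (b ^ (2 * N + 1))).filter (fun n =>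
      (Nat.digits b n).reverse = Nat.digits b n ∧ |(n : ℝ) - x| < (x : ℝ) ^ ((1 + δ) / 2) ∧
      (n.primeFactorsList.length : ℝ) ≤ 25 / δ ∧
      ∀ p ∈ n.primeFactorsList, (x : ℝ) ^ (δ / 25) < p)).card : ℝ) := by
  classical
  obtain ⟨c, hc, L0, h⟩ := palshort hb
  have hbR : (2 : ℝ) ≤ b := by exact_mod_cast hb
  have hb0 : (0 : ℝ) < b := by linarith
  have hb1 : (1 : ℝ) ≤ b := by linarith
  obtain ⟨N0, hN0⟩ := exists_nat_ge ((L0 + 62 : ℝ) / δ)
  refine ⟨c / b ^ 2, by positivity, N0, fun N x hN h1 h2 h3 => ?_⟩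
  have hNR : (L0 + 62 : ℝ) / δ ≤ N := hN0.trans (by exact_mod_cast hN)
  rw [div_le_iff₀ hδ] at hNR
  have hL0 : (0 : ℝ) ≤ L0 := Nat.cast_nonneg _
  have hNpos : (0 : ℝ) < N := by
    by_contra hcon
    push Not at hcon
    nlinarith
  obtain ⟨F, hF⟩ : ∃ F : ℕ, F = ⌊δ * N⌋₊ := ⟨_, rfl⟩
  have hF1 : (F : ℝ) ≤ δ * N := by rw [hF]; exact Nat.floor_le (by positivity)
  have hF2 : δ * N < F + 1 := by rw [hF]; exact Nat.lt_floor_add_one _
  have hF3 : 1 ≤ F := by
    have : (1 : ℝ) < F := by nlinarith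
    exact_mod_cast this.le
  obtain ⟨L, hL⟩ : ∃ L : ℕ, F = L + 1 := ⟨F - 1, by omega⟩
  rw [hL] at hF1 hF2
  push_cast at hF1 hF2
  have hLL : L0 ≤ L := by
    have : (L0 : ℝ) ≤ L := by nlinarith
    exact_mod_cast this
  have hLN : L < N := by
    have : (L : ℝ) < N := by nlinarith
    exact_mod_cast this
  have hLpos : (0 : ℝ) < L := by nlinarith
  have hLNR : (L : ℝ) ≤ N := by exact_mod_cast hLN.le
  have hx0 : (0 : ℝ) < x := by
    have : 0 < x := lt_of_lt_of_le (by positivity) h1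
    exact_mod_cast this
  refine le_trans ?_ ((h L N x hLL hLN h1 h2 h3).trans ?_)
  · have h4 : (b : ℝ) ^ (δ * N) ≤ (b : ℝ) ^ 2 * (b : ℝ) ^ L := by
      rw [← pow_add, ← Real.rpow_natCast]
      apply Real.rpow_le_rpow_of_exponent_le hb1
      push_cast
      linarith
    rw [div_le_div_iff₀ hNpos hLpos]
    have h5 : c / (b : ℝ) ^ 2 * (b : ℝ) ^ (δ * N) ≤ c * (b : ℝ) ^ L := by
      rw [div_mul_eq_mul_div, div_le_iff₀ (by positivity)]
      calc c * (b : ℝ) ^ (δ * N) ≤ c * ((b : ℝ) ^ 2 * (b : ℝ) ^ L) := by gcongr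
        _ = _ := by ring
    exact mul_le_mul h5 hLNR hLpos.le (by positivity)
  · rw [Nat.cast_le]
    apply card_le_card
    intro n hn
    rw [mem_filter, mem_range] at hn ⊢
    obtain ⟨g1, g2, g3, g4, g5⟩ := hn
    refine ⟨g1, g2, ?_, ?_, ?_⟩
    · have h6 : |(n : ℝ) - x| < (b : ℝ) ^ (N + L + 1) := by
        have e1 := Nat.div_add_mod n (b ^ (N + L + 1))
        have e2 := Nat.div_add_mod x (b ^ (N + L + 1))
        have e3 := Nat.mod_lt n (show 0 < b ^ (N + L + 1) by positivity)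
        have e4 := Nat.mod_lt x (show 0 < b ^ (N + L + 1) by positivity)
        rw [g3] at e1
        generalize n % b ^ (N + L + 1) = r1 at e1 e3
        generalize x % b ^ (N + L + 1) = r2 at e2 e4
        have e5 : n < x + b ^ (N + L + 1) := by omega
        have e6 : x < n + b ^ (N + L + 1) := by omega
        have e5' : (n : ℝ) < x + (b : ℝ) ^ (N + L + 1) := by exact_mod_cast e5
        have e6' : (x : ℝ) < n + (b : ℝ) ^ (N + L + 1) := by exact_mod_cast e6
        rw [abs_lt]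
        constructor <;> linarith
      refine h6.trans_le ?_
      have h7 : (b : ℝ) ^ (N + L + 1) ≤ ((b : ℝ) ^ (2 * N)) ^ ((1 + δ) / 2) := by
        rw [← Real.rpow_natCast, ← Real.rpow_natCast, ← Real.rpow_mul hb0.le]
        apply Real.rpow_le_rpow_of_exponent_le hb1
        push_cast
        nlinarith
      refine h7.trans (Real.rpow_le_rpow (by positivity) ?_ (by positivity))
      exact_mod_cast h1
    · have h6 : (n.primeFactorsList.length : ℝ) * L < 12 * (2 * N + 1) := by exact_mod_cast g5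
      rw [le_div_iff₀ hδ]
      have h7 : (n.primeFactorsList.length : ℝ) * L * δ < 12 * (2 * N + 1) * δ := by
        exact mul_lt_mul_of_pos_right h6 hδ
      have h8 : 12 * (2 * N + 1) * δ ≤ 25 * (L : ℝ) := by nlinarith
      have h9 : (n.primeFactorsList.length : ℝ) * δ * L ≤ 25 * L := by
        calc (n.primeFactorsList.length : ℝ) * δ * L = (n.primeFactorsList.length : ℝ) * L * δ := by ring
          _ ≤ _ := (h7.trans_le h8).le
      exact le_of_mul_le_mul_right h9 hLpos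
    · intro p hp
      have h6 : (b : ℝ) ^ L < (p : ℝ) ^ 12 := by exact_mod_cast g4 p hp
      have h7 : ((x : ℝ) ^ (δ / 25)) ^ 12 < (p : ℝ) ^ 12 := by
        refine lt_of_le_of_lt ?_ h6
        rw [← Real.rpow_natCast, ← Real.rpow_mul hx0.le]
        have h8 : (x : ℝ) ≤ (b : ℝ) ^ ((2 * N + 1 : ℕ) : ℝ) := by
          rw [Real.rpow_natCast]
          exact_mod_cast h2.le
        calc (x : ℝ) ^ (δ / 25 * ((12 : ℕ) : ℝ)) ≤ ((b : ℝ) ^ ((2 * N + 1 : ℕ) : ℝ)) ^ (δ / 25 * ((12 : ℕ) : ℝ)) :=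
              Real.rpow_le_rpow hx0.le h8 (by positivity)
          _ = (b : ℝ) ^ (((2 * N + 1 : ℕ) : ℝ) * (δ / 25 * ((12 : ℕ) : ℝ))) := by
              rw [← Real.rpow_mul hb0.le]
          _ ≤ (b : ℝ) ^ ((L : ℕ) : ℝ) := by
              apply Real.rpow_le_rpow_of_exponent_le hb1
              push_cast
              nlinarith
          _ = _ := Real.rpow_natCast _ _
      exact lt_of_pow_lt_pow_left₀ 12 (Nat.cast_nonneg _) h7

end Pool.Agent.Y816.PS
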