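import Pool.Agent.Y816.PS.C

/-!
# Palindromic primes with prescribed outer digits: upper bound of the right order
-/

set_option autoImplicit false

namespace Pool.Agent.Y816.PS

open Finset Filter Topology Pool.Agent.W89.PW Pool.Agent.W139.PX
open Pool.Agent.W89.Sv (PP PZ VZ rem RR UA sift wt En weighted_sieve V_lim cV cV_pos mem_PP dvd_PZ total_rem
  final_consts)
open Pool.Agent.H623R3.PBT8 (coprime_pos)

/-- the palindrome with the middle digit `e` -/
def VE (b N L x e : ℕ) (m : Fin L → Fin b × Fin 1) : ℕ := pal b N (fun j => if j = 0 then e else av b N L x m j)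

lemma VE_add (b N L x e : ℕ) (m : Fin L → Fin b × Fin 1) :
    VE b N L x e m + b ^ N = VV b N L x m + e * b ^ N := by
  unfold VE VV
  rw [pal_eq, pal_eq]
  have h1 : av b N L x m 0 = 1 := by simp [av]
  simp only [if_true, Nat.succ_ne_zero, if_false, h1]
  ring

lemma VE_eq {b N L : ℕ} (x e : ℕ) (h : L + 1 ≤ N) (m : Fin L → Fin b × Fin 1) :
    VE b N L x e m = (n0 b N L x - b ^ N + e * b ^ N) + b ^ (N - L - 1) * sg b L m := by
  have h1 := VE_add b N L x e m
  rw [VV_eq x h] at h1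
  have h2 : b ^ N ≤ n0 b N L x := by unfold n0; omega
  omega

/-- divisibility of an affine function is a residue class for `pv` -/
lemma aff_dvd {b N L q : ℕ} (c0 : ℕ) (hq : q.Coprime (2 * b)) (hq0 : 0 < q) :
    ∃ r : ℕ, ∀ m : Fin L → Fin b × Fin 1, q ∣ c0 + b ^ (N - L - 1) * sg b L m ↔ pv b b 1 L m ≡ r [MOD q] := by
  have : NeZero q := ⟨hq0.ne'⟩
  have hB : (b ^ (N - L - 1)).Coprime q := (Nat.Coprime.pow_right _ (Nat.Coprime.coprime_mul_left_right hq)).symm
  have hu := ZMod.coe_mul_inv_eq_one _ hB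
  obtain ⟨u, hu'⟩ : ∃ u : ZMod q, u = (((b ^ (N - L - 1) : ℕ) : ZMod q))⁻¹ := ⟨_, rfl⟩
  rw [← hu'] at hu
  obtain ⟨B, hBd⟩ : ∃ B : ZMod q, B = ((b ^ (N - L - 1) : ℕ) : ZMod q) := ⟨_, rfl⟩
  rw [← hBd] at hu
  obtain ⟨C, hC⟩ : ∃ C : ℕ, C = b ^ (2 * L + 2) + b ^ (L + 1) + 1 := ⟨_, rfl⟩
  refine ⟨((C : ZMod q) - c0 * u).val, fun m => ?_⟩
  rw [← ZMod.natCast_eq_natCast_iff, ZMod.natCast_val, ZMod.cast_id, pv_sg, ← hC,
    ← ZMod.natCast_eq_zero_iff]
  push_cast [← hBd]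
  constructor
  · intro h1
    have h2 : (sg b L m : ZMod q) = - (c0 * u) := by
      have h3 : B * (sg b L m : ZMod q) = - c0 := by
        rw [eq_neg_iff_add_eq_zero, add_comm]
        exact h1
      calc (sg b L m : ZMod q) = (B * u) * sg b L m := by rw [hu, one_mul]
        _ = u * (B * sg b L m) := by ring
        _ = _ := by rw [h3]; ring
    rw [h2]
    ring
  · intro h1
    have h2 : (sg b L m : ZMod q) = - (c0 * u) := by
      have h3 : (sg b L m : ZMod q) = (C : ZMod q) + sg b L m - C := by ring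
      rw [h3, h1]
      ring
    rw [h2]
    calc (c0 : ZMod q) + B * -(c0 * u) = c0 - c0 * (B * u) := by ring
      _ = 0 := by rw [hu]; ring

lemma rem_VE {b N L x q : ℕ} (e : ℕ) (hb : 2 ≤ b) (h : L + 1 ≤ N) (hq : q.Coprime (2 * b)) :
    |rem (univ : Finset (Fin L → Fin b × Fin 1)) (VE b N L x e) ((b : ℝ) ^ L) q| ≤ er b L q := by
  have hq0 : 0 < q := coprime_pos hq
  obtain ⟨r, hr⟩ := aff_dvd (N := N) (L := L) (n0 b N L x - b ^ N + e * b ^ N) hq hq0
  have h1 := cnth_bound (s := b) (t := 1) (by omega) one_pos b L q r hq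
  have h2 : ((b : ℝ) * (1 : ℕ)) ^ L = (b : ℝ) ^ L := by simp
  rw [h2] at h1
  unfold rem er
  have h3 : ((univ : Finset (Fin L → Fin b × Fin 1)).filter (fun i => q ∣ VE b N L x e i)) =
      univ.filter (fun m => pv b b 1 L m ≡ r [MOD q]) := by
    apply filter_congr
    intro m _
    rw [VE_eq x e h]
    exact hr m
  rw [h3]
  exact h1

/-- a digit at distance `j` from the middle -/
lemma digit_sym {b N n : ℕ} (hb : 2 ≤ b) (h1 : b ^ (2 * N) ≤ n) (h2 : n < b ^ (2 * N + 1))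
    (hp : (Nat.digits b n).reverse = Nat.digits b n) {i : ℕ} (hi : i ≤ 2 * N) :
    n / b ^ i % b = n / b ^ (2 * N - i) % b := by
  have hn : n ≠ 0 := by
    have : 0 < b ^ (2 * N) := by positivity
    omega
  have hlen : (Nat.digits b n).length = 2 * N + 1 := by
    rw [Nat.length_digits b n (by omega) hn, Nat.log_eq_of_pow_le_of_lt_pow h1 h2]
  rw [← Nat.getD_digits n i hb, ← Nat.getD_digits n (2 * N - i) hb]
  conv_lhs => rw [← hp]
  rw [List.getD_eq_getElem _ _ (by rw [List.length_reverse, hlen]; omega),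
    List.getD_eq_getElem _ _ (by rw [hlen]; omega), List.getElem_reverse]
  congr 1
  omega

/-- every palindrome with the prescribed outer digits is of the form `VE` -/
lemma VE_surj {b N L x n : ℕ} (hb : 2 ≤ b) (h1 : b ^ (2 * N) ≤ n) (h2 : n < b ^ (2 * N + 1))
    (hp : (Nat.digits b n).reverse = Nat.digits b n) (hd : n / b ^ (N + L + 1) = x / b ^ (N + L + 1)) :
    n = VE b N L x (n / b ^ N % b)
      (fun c => (⟨n / b ^ (N + (c : ℕ) + 1) % b, Nat.mod_lt _ (by omega)⟩, 0)) := by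
  have h3 : ∀ j, j ≤ N → (if j = 0 then n / b ^ N % b else av b N L x
      (fun c : Fin L => ((⟨n / b ^ (N + (c : ℕ) + 1) % b, Nat.mod_lt _ (by omega)⟩ : Fin b), (0 : Fin 1))) j) =
      n / b ^ (N + j) % b := by
    intro j hj
    rcases Nat.eq_zero_or_pos j with h | h
    · rw [if_pos h, h, add_zero]
    · rw [if_neg (by omega)]
      rcases le_or_gt j L with h4 | h4
      · unfold av
        rw [if_neg (by omega), dif_pos (by omega : j - 1 < L)]
        simp only [Fin.val_zero, add_zero, Fin.isValue]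
        rw [show N + (j - 1) + 1 = N + j by omega]
      · rw [av_out _ h4]
        have h5 : ∀ y : ℕ, y / b ^ (N + j) = y / b ^ (N + L + 1) / b ^ (j - L - 1) := by
          intro y
          rw [Nat.div_div_eq_div_mul, ← pow_add]
          congr 2
          omega
        rw [h5 x, h5 n, hd]
  have h4 : n = ∑ i ∈ range (2 * N + 1), (n / b ^ i % b) * b ^ i := by
    rw [sum_dig, Nat.mod_eq_of_lt h2]
  unfold VE pal
  conv_lhs => rw [h4]
  refine sum_congr rfl fun i hi => ?_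
  rw [mem_range] at hi
  have h6 := h3 (N - i + (i - N)) (by omega)
  refine Eq.trans ?_ (congrArg (fun y => y * b ^ i) h6.symm)
  congr 1
  rcases le_or_gt N i with h5 | h5
  · rw [show N + (N - i + (i - N)) = i by omega]
  · rw [show N + (N - i + (i - N)) = 2 * N - i by omega]
    exact digit_sym hb h1 h2 hp (by omega)

/-- upper bound sieve -/
theorem upperE {b : ℕ} (hb : 2 ≤ b) : ∃ C : ℝ, 0 < C ∧ ∃ L0 : ℕ, ∀ L N x e : ℕ, L0 ≤ L → L + 1 ≤ N →
    (((univ : Finset (Fin L → Fin b × Fin 1)).filter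
      (fun m => (VE b N L x e m).Coprime (PZ (2 * b) (zz b (11 / 24) L)))).card : ℝ) ≤ C * (b : ℝ) ^ L / L := by
  classical
  obtain ⟨cc, hcc, -, -⟩ := final_consts (2 * b) (by omega) (dvd_mul_right 2 b)
  obtain ⟨hcc0, hUA⟩ := hcc 0 (by norm_num)
  obtain ⟨z0, hz0'⟩ := hUA 1 one_pos
  have hbR : (2 : ℝ) ≤ b := by exact_mod_cast hb
  have hlb0 : 0 < Real.log b := Real.log_pos (by linarith)
  obtain ⟨κ, hκ⟩ : ∃ κ : ℝ, κ = 11 / 24 := ⟨_, rfl⟩
  have hκ0 : 0 < κ := by rw [hκ]; norm_num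
  rw [← hκ]
  set K : ℝ := cV (2 * b) with hK
  have hK0 : 0 < K := cV_pos _
  obtain ⟨C, hC⟩ : ∃ C : ℝ, C = (cc 0 + 1) * (2 * K / (κ / 6 * Real.log b)) + 1 := ⟨_, rfl⟩
  have hC0 : 0 < C := by rw [hC]; positivity
  refine ⟨C, hC0, ?_⟩
  have e1 : ∀ᶠ L : ℕ in atTop, VZ (2 * b) (zz b κ L) * Real.log (zz b κ L : ℝ) < 2 * K :=
    ((V_lim (2 * b) (by omega)).comp (tendsto_zz (by omega) hκ0)).eventually_lt_const (by linarith)
  have e2 : ∀ᶠ L : ℕ in atTop, max z0 2 ≤ zz b κ L := (tendsto_zz (by omega) hκ0).eventually_ge_atTop _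
  have e3 := er_final hb 3
  have e5 : ∀ᶠ L : ℕ in atTop, 1 ≤ L := eventually_ge_atTop 1
  have e6 : ∀ᶠ L : ℕ in atTop, 2 ≤ (b : ℝ) ^ (κ * (2 / 11 - 1 / 6) * (L : ℝ)) :=
    (tendsto_bpow (by omega) (a := κ * (2 / 11 - 1 / 6)) (by positivity)).eventually_ge_atTop 2
  obtain ⟨L0, hL0'⟩ := eventually_atTop.1 (e1.and (e2.and (e3.and (e5.and e6))))
  refine ⟨L0, fun L N x e hL hN => ?_⟩
  obtain ⟨h1, h2, h3, h5, h6⟩ := hL0' L hL
  have hL1 : (1 : ℝ) ≤ L := by exact_mod_cast h5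
  have hL0 : (0 : ℝ) < L := by linarith
  set z := zz b κ L with hz
  have hz0 : z0 ≤ z := (le_max_left _ _).trans h2
  have hz2 : 2 ≤ z := (le_max_right _ _).trans h2
  have hzR : (2 : ℝ) ≤ z := by exact_mod_cast hz2
  have hzle : (z : ℝ) ≤ (b : ℝ) ^ (κ * L * (2 / 11)) := zz_le b κ L
  have hzD : (z : ℝ) ^ (11 / 2 : ℝ) ≤ (b : ℝ) ^ ((49 / 100 : ℝ) * L) := by
    refine (zz_pow_le κ L).trans (Real.rpow_le_rpow_of_exponent_le (by linarith) ?_)
    rw [hκ]
    nlinarith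
  have hzη : (b : ℝ) ^ (κ / 6 * L) ≤ z := by
    have e : (b : ℝ) ^ (κ * L * (2 / 11)) = (b : ℝ) ^ (κ / 6 * L) * (b : ℝ) ^ (κ * (2 / 11 - 1 / 6) * (L : ℝ)) := by
      rw [← Real.rpow_add (by linarith)]
      congr 1
      ring
    have h8 : (b : ℝ) ^ (κ * L * (2 / 11)) < z + 1 := Nat.lt_floor_add_one _
    have h9 : 1 < (b : ℝ) ^ (κ / 6 * L) := Real.one_lt_rpow (by linarith) (by positivity)
    have h10 : (b : ℝ) ^ (κ / 6 * L) * 2 ≤ (b : ℝ) ^ (κ * L * (2 / 11)) := by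
      rw [e]
      exact mul_le_mul_of_nonneg_left h6 (by positivity)
    linarith
  have hlogz : κ / 6 * L * Real.log b ≤ Real.log z := by
    have h8 := Real.log_le_log (by positivity) hzη
    rwa [Real.log_rpow (by linarith)] at h8
  have hVpos : 0 < VZ (2 * b) z := Pool.Agent.W89.Sv.VZ_pos _ _
  have hVL : VZ (2 * b) z ≤ 2 * K / (κ / 6 * Real.log b) / L := by
    rw [div_div, le_div_iff₀ (by positivity)]
    have h8 := mul_le_mul_of_nonneg_left hlogz hVpos.le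
    have h9 : κ / 6 * Real.log b * L = κ / 6 * L * Real.log b := by ring
    rw [h9]
    linarith
  set X : ℝ := (b : ℝ) ^ L with hX
  have hX0 : 0 < X := by positivity
  have hzD' : (z : ℝ) ^ (((71 - 0 : ℕ) : ℝ) / 16) ≤ (z : ℝ) ^ (11 / 2 : ℝ) := by
    apply Real.rpow_le_rpow_of_exponent_le (by linarith)
    norm_num
  have hS := hz0' z hz0 ((z : ℝ) ^ (11 / 2 : ℝ)) hzD' (Fin L → Fin b × Fin 1) univ (VE b N L x e) X hX0.le 1
    one_pos (Nat.coprime_one_left _)
  have hD1 : 1 ≤ (z : ℝ) ^ (11 / 2 : ℝ) := Real.one_le_rpow (by linarith) (by norm_num)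
  have hRR : RR (2 * b) (univ : Finset (Fin L → Fin b × Fin 1)) (VE b N L x e) X 1 z ((z : ℝ) ^ (11 / 2 : ℝ)) ≤
      X / (L : ℝ) ^ 3 := by
    have h7 := total_rem (2 * b) z hD1 (univ : Finset (Fin L → Fin b × Fin 1)) (VE b N L x e) X 0
    have h8 : 0 ≤ ∑ p ∈ (PP (2 * b) 0).filter (fun p => z ≤ p),
        RR (2 * b) (univ : Finset (Fin L → Fin b × Fin 1)) (VE b N L x e) X p z ((z : ℝ) ^ (11 / 2 : ℝ) / p) :=
      sum_nonneg fun p _ => by
        unfold RR
        exact sum_nonneg fun _ _ => by positivity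
    have h9 : ∑ q ∈ (Icc 1 ⌊(z : ℝ) ^ (11 / 2 : ℝ)⌋₊).filter (fun q => q.Coprime (2 * b)),
        (q.divisors.card : ℝ) ^ 2 * |rem (univ : Finset (Fin L → Fin b × Fin 1)) (VE b N L x e) X q| ≤
        X / (L : ℝ) ^ 3 := by
      refine le_trans ?_ h3
      have hsub : (Icc 1 ⌊(z : ℝ) ^ (11 / 2 : ℝ)⌋₊).filter (fun q => q.Coprime (2 * b)) ⊆
          (Icc 1 ⌊(b : ℝ) ^ ((49 / 100 : ℝ) * L)⌋₊).filter (fun q => q.Coprime (2 * b)) := by
        intro q hq
        rw [mem_filter, mem_Icc] at hq ⊢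
        exact ⟨⟨hq.1.1, hq.1.2.trans (Nat.floor_le_floor hzD)⟩, hq.2⟩
      refine le_trans (sum_le_sum_of_subset_of_nonneg hsub fun _ _ _ => by positivity)
        (sum_le_sum fun q hq => ?_)
      exact mul_le_mul_of_nonneg_left (rem_VE e hb hN (mem_filter.1 hq).2) (by positivity)
    linarith
  have hsift : sift (2 * b) (univ : Finset (Fin L → Fin b × Fin 1)) (VE b N L x e) 1 z =
      (((univ : Finset (Fin L → Fin b × Fin 1)).filter
        (fun m => (VE b N L x e m).Coprime (PZ (2 * b) z))).card : ℝ) := by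
    unfold sift
    congr 2
    apply filter_congr
    intro m _
    simp
  rw [hsift] at hS
  have h7 : (cc 0 + 1) * (X / ((1 : ℕ) : ℝ) * VZ (2 * b) z) ≤
      (cc 0 + 1) * (X * (2 * K / (κ / 6 * Real.log b) / L)) := by
    rw [Nat.cast_one, div_one]
    gcongr
  have h8 : X / (L : ℝ) ^ 3 ≤ X / L := by
    apply div_le_div_of_nonneg_left hX0.le hL0
    exact le_self_pow₀ hL1 (by norm_num)
  have h9 : C * X / L = (cc 0 + 1) * (X * (2 * K / (κ / 6 * Real.log b) / L)) + X / L := by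
    rw [hC]
    ring
  linarith

/-- **Upper bound for the palindromes with prescribed outer digits and without small prime factors.** -/
theorem palrough {b : ℕ} (hb : 2 ≤ b) : ∃ C : ℝ, 0 < C ∧ ∃ L₀ : ℕ, ∀ L N x : ℕ, L₀ ≤ L → L < N →
    b ^ (2 * N) ≤ x → x < b ^ (2 * N + 1) →
    (((range (b ^ (2 * N + 1))).filter (fun n =>
      (Nat.digits b n).reverse = Nat.digits b n ∧ n / b ^ (N + L + 1) = x / b ^ (N + L + 1) ∧
      ∀ p ∈ n.primeFactorsList, b ^ L < p ^ 12)).card : ℝ) ≤ C * (b : ℝ) ^ L / L := by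
  classical
  obtain ⟨C, hC, L0, h⟩ := upperE hb
  refine ⟨b * C, by positivity, L0, fun L N x hL hN h1 h2 => ?_⟩
  obtain ⟨S, hS⟩ : ∃ S : Finset ℕ, S = (range (b ^ (2 * N + 1))).filter (fun n =>
      (Nat.digits b n).reverse = Nat.digits b n ∧ n / b ^ (N + L + 1) = x / b ^ (N + L + 1) ∧
      ∀ p ∈ n.primeFactorsList, b ^ L < p ^ 12) := ⟨_, rfl⟩
  rw [← hS]
  obtain ⟨T, hT⟩ : ∃ T : ℕ → Finset (Fin L → Fin b × Fin 1), T = fun e => univ.filter
      (fun m => (VE b N L x e m).Coprime (PZ (2 * b) (zz b (11 / 24) L))) := ⟨_, rfl⟩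
  have hz : (zz b (11 / 24) L) ^ 12 ≤ b ^ L := by
    have h3 := zz_le b (11 / 24) L
    have h4 : ((zz b (11 / 24) L : ℕ) : ℝ) ^ 12 ≤ ((b : ℝ) ^ ((11 / 24 : ℝ) * L * (2 / 11))) ^ 12 :=
      pow_le_pow_left₀ (Nat.cast_nonneg _) h3 12
    have h5 : ((b : ℝ) ^ ((11 / 24 : ℝ) * L * (2 / 11))) ^ 12 = (b : ℝ) ^ L := by
      rw [← Real.rpow_natCast, ← Real.rpow_mul (Nat.cast_nonneg _), ← Real.rpow_natCast]
      congr 1
      push_cast
      ring
    rw [h5] at h4
    exact_mod_cast h4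
  have hsub : S ⊆ (range b).biUnion (fun e => (T e).image (VE b N L x e)) := by
    intro n hn
    rw [hS, mem_filter, mem_range] at hn
    obtain ⟨g1, g2, g3, g4⟩ := hn
    have g5 : b ^ (2 * N) ≤ n := by
      have e1 : b ^ (N - L - 1) ≤ x / b ^ (N + L + 1) := by
        rw [Nat.le_div_iff_mul_le (by positivity), ← pow_add]
        rwa [show N - L - 1 + (N + L + 1) = 2 * N by omega]
      rw [← g3, Nat.le_div_iff_mul_le (by positivity), ← pow_add,
        show N - L - 1 + (N + L + 1) = 2 * N by omega] at e1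
      exact e1
    have g0 : n ≠ 0 := by
      have : 0 < b ^ (2 * N) := by positivity
      omega
    have g6 := VE_surj hb g5 g1 g2 g3
    rw [mem_biUnion]
    refine ⟨n / b ^ N % b, mem_range.2 (Nat.mod_lt _ (by omega)), ?_⟩
    rw [mem_image]
    refine ⟨_, ?_, g6.symm⟩
    rw [hT]
    simp only [mem_filter, mem_univ, true_and]
    rw [← g6]
    unfold PZ
    apply Nat.Coprime.prod_right
    intro p hp
    have hp' := mem_PP.1 hp
    refine Nat.Coprime.symm ((Nat.Prime.coprime_iff_not_dvd hp'.2.1).2 fun hd => ?_)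
    have h3 := g4 p (Nat.mem_primeFactorsList g0 |>.2 ⟨hp'.2.1, hd⟩)
    have h4 : p ^ 12 ≤ (zz b (11 / 24) L) ^ 12 := Nat.pow_le_pow_left hp'.1.le 12
    omega
  have h3 : (S.card : ℝ) ≤ ∑ e ∈ range b, ((T e).card : ℝ) := by
    have h4 : S.card ≤ ∑ e ∈ range b, (T e).card :=
      (card_le_card hsub).trans (card_biUnion_le.trans (sum_le_sum fun e _ => card_image_le))
    exact_mod_cast h4
  refine h3.trans ?_
  calc ∑ e ∈ range b, ((T e).card : ℝ) ≤ ∑ _e ∈ range b, C * (b : ℝ) ^ L / L := by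
        refine sum_le_sum fun e _ => ?_
        rw [hT]
        exact h L N x e hL hN
    _ = _ := by
        rw [sum_const, card_range, nsmul_eq_mul]
        ring

/-- the same for the palindromic primes -/
theorem palprimes {b : ℕ} (hb : 2 ≤ b) : ∃ C : ℝ, 0 < C ∧ ∃ L₀ : ℕ, ∀ L N x : ℕ, L₀ ≤ L → L < N →
    b ^ (2 * N) ≤ x → x < b ^ (2 * N + 1) →
    (((range (b ^ (2 * N + 1))).filter (fun n =>
      (Nat.digits b n).reverse = Nat.digits b n ∧ n / b ^ (N + L + 1) = x / b ^ (N + L + 1) ∧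
      n.Prime)).card : ℝ) ≤ C * (b : ℝ) ^ L / L := by
  classical
  obtain ⟨C, hC, L0, h⟩ := palrough hb
  refine ⟨C, hC, L0, fun L N x hL hN h1 h2 => le_trans ?_ (h L N x hL hN h1 h2)⟩
  rw [Nat.cast_le]
  apply card_le_card
  intro n hn
  rw [mem_filter, mem_range] at hn ⊢
  obtain ⟨g1, g2, g3, g4⟩ := hn
  refine ⟨g1, g2, g3, fun p hp => ?_⟩
  rw [Nat.primeFactorsList_prime g4, List.mem_singleton] at hp
  rw [hp]
  have e1 : b ^ (N - L - 1) ≤ x / b ^ (N + L + 1) := by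
    rw [Nat.le_div_iff_mul_le (by positivity), ← pow_add]
    rwa [show N - L - 1 + (N + L + 1) = 2 * N by omega]
  rw [← g3, Nat.le_div_iff_mul_le (by positivity), ← pow_add,
    show N - L - 1 + (N + L + 1) = 2 * N by omega] at e1
  calc b ^ L < b ^ (2 * N) := Nat.pow_lt_pow_right (by omega) (by omega)
    _ ≤ n := e1
    _ ≤ n ^ 12 := Nat.le_self_pow (by norm_num) n

end Pool.Agent.Y816.PS
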