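import Pool.Agent.Y816.PS.D
import Pool.Agent.Y816.PS.E

/-!
# Palindromes with prescribed outer digits: two-sided bounds
-/

set_option autoImplicit false

namespace Pool.Agent.Y816.PS

open Finset

/-- both bounds -/
theorem paltwo {b : ℕ} (hb : 2 ≤ b) : ∃ c C : ℝ, 0 < c ∧ 0 < C ∧ ∃ L₀ : ℕ, ∀ L N x : ℕ, L₀ ≤ L → L < N →
    b ^ (2 * N) ≤ x → x < b ^ (2 * N + 1) →
    ((x / b ^ (2 * N)).Coprime b →
      c * (b : ℝ) ^ L / L ≤ (((range (b ^ (2 * N + 1))).filter (fun n =>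
        (Nat.digits b n).reverse = Nat.digits b n ∧ n / b ^ (N + L + 1) = x / b ^ (N + L + 1) ∧
        (∀ p ∈ n.primeFactorsList, b ^ L < p ^ 12) ∧
        n.primeFactorsList.length * L < 12 * (2 * N + 1))).card : ℝ)) ∧
    (((range (b ^ (2 * N + 1))).filter (fun n =>
      (Nat.digits b n).reverse = Nat.digits b n ∧ n / b ^ (N + L + 1) = x / b ^ (N + L + 1) ∧
      ∀ p ∈ n.primeFactorsList, b ^ L < p ^ 12)).card : ℝ) ≤ C * (b : ℝ) ^ L / L ∧
    (((range (b ^ (2 * N + 1))).filter (fun n =>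
      (Nat.digits b n).reverse = Nat.digits b n ∧ n / b ^ (N + L + 1) = x / b ^ (N + L + 1) ∧
      n.Prime)).card : ℝ) ≤ C * (b : ℝ) ^ L / L := by
  obtain ⟨c, hc, L1, h1⟩ := palshort hb
  obtain ⟨C, hC, L2, h2⟩ := palrough hb
  obtain ⟨C', hC', L3, h3⟩ := palprimes hb
  refine ⟨c, max C C', hc, lt_max_of_lt_left hC, max L1 (max L2 L3), fun L N x hL hN g1 g2 => ?_⟩
  have hL1 : L1 ≤ L := (le_max_left _ _).trans hL
  have hL2 : L2 ≤ L := ((le_max_left _ _).trans (le_max_right _ _)).trans hL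
  have hL3 : L3 ≤ L := ((le_max_right _ _).trans (le_max_right _ _)).trans hL
  have e : ∀ D : ℝ, D ≤ max C C' → D * (b : ℝ) ^ L / L ≤ max C C' * (b : ℝ) ^ L / L := fun D hD => by
    gcongr
  exact ⟨fun g3 => h1 L N x hL1 hN g1 g2 g3, (h2 L N x hL2 hN g1 g2).trans (e _ (le_max_left _ _)),
    (h3 L N x hL3 hN g1 g2).trans (e _ (le_max_right _ _))⟩

end Pool.Agent.Y816.PS
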