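import Pool.Agent.Y816.PS.G

/-!
# Palindromes which differ only in the middle digit, all with few prime factors
-/

set_option autoImplicit false

namespace Pool.Agent.Y816.PS

open Finset Filter Topology Pool.Agent.W89.PW Pool.Agent.W139.PX
open Pool.Agent.H373R2.T7 Pool.Agent.H410R2.ED
open Pool.Agent.H623R3.PBT8 (coprime_pos)
open Pool.Agent.Y816.PD (Z_le exists_class chooseJ)

lemma pal_div {b N L x : ℕ} (hb : 2 ≤ b) (h : L + 1 ≤ N) (hx : x < b ^ (2 * N + 1)) {a : ℕ → ℕ}
    (ha : ∀ i, a i < b) (hout : ∀ j, L < j → a j = x / b ^ (N + j) % b) :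
    pal b N a / b ^ (N + L + 1) = x / b ^ (N + L + 1) := by
  unfold pal
  rw [show 2 * N + 1 = (N + L + 1) + (N - L) by omega, sum_range_add]
  have h1 : ∀ j ∈ range (N - L), a (N - (N + L + 1 + j) + (N + L + 1 + j - N)) *
      b ^ (N + L + 1 + j) = b ^ (N + L + 1) * ((x / b ^ (N + L + 1) / b ^ j % b) * b ^ j) := by
    intro j _
    rw [show N - (N + L + 1 + j) + (N + L + 1 + j - N) = L + 1 + j by omega, hout _ (by omega),
      show N + (L + 1 + j) = N + L + 1 + j by ring, Nat.div_div_eq_div_mul, ← pow_add, pow_add b (N + L + 1) j]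
    ring
  rw [sum_congr rfl h1, ← mul_sum, sum_dig]
  have h2 : x / b ^ (N + L + 1) < b ^ (N - L) := by
    rw [Nat.div_lt_iff_lt_mul (by positivity), ← pow_add]
    rwa [show N - L + (N + L + 1) = 2 * N + 1 by omega]
  rw [Nat.mod_eq_of_lt h2]
  have h3 := sum_lt (b := b) (f := fun i => a ((N - i) + (i - N))) (fun i => ha _) (N + L + 1)
  rw [Nat.add_mul_div_left _ _ (by positivity), Nat.div_eq_of_lt h3, zero_add]

lemma pal_mid {b N : ℕ} (hb : 2 ≤ b) {a : ℕ → ℕ} (ha : ∀ i, a i < b) (h0 : a N ≠ 0) :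
    pal b N a / b ^ N % b = a 0 := by
  rw [← Nat.getD_digits _ _ hb, pal_digits hb ha h0, List.getD_eq_getElem _ _ (by simp; omega)]
  simp

/-- the digits of `VE` -/
def ae (b N L x e : ℕ) (m : Fin L → Fin b × Fin 1) (j : ℕ) : ℕ := if j = 0 then e else av b N L x m j

lemma ae_lt {b : ℕ} (hb : 2 ≤ b) (N L x : ℕ) {e : ℕ} (he : e < b) (m : Fin L → Fin b × Fin 1) (j : ℕ) :
    ae b N L x e m j < b := by
  unfold ae
  split_ifs
  · exact he
  · exact av_lt hb _ _ _ _ _

lemma ae_out {b N L x e : ℕ} (m : Fin L → Fin b × Fin 1) {j : ℕ} (hj : L < j) :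
    ae b N L x e m j = x / b ^ (N + j) % b := by
  unfold ae
  rw [if_neg (by omega), av_out m hj]

lemma ae_top {b N L x e : ℕ} (hb : 2 ≤ b) (h : L + 1 ≤ N) (hx : x < b ^ (2 * N + 1)) (h0 : b ^ (2 * N) ≤ x)
    (m : Fin L → Fin b × Fin 1) : ae b N L x e m N ≠ 0 := by
  rw [ae_out m (by omega), top_digit hb hx]
  have : 0 < x / b ^ (2 * N) := Nat.div_pos h0 (by positivity)
  omega

lemma VE_shift {b N L x : ℕ} (e : ℕ) (m : Fin L → Fin b × Fin 1) :
    VE b N L x 0 m + e * b ^ N = VE b N L x e m := by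
  have h1 := VE_add b N L x e m
  have h2 := VE_add b N L x 0 m
  omega

lemma VE_inj {b N L x e : ℕ} (hb : 2 ≤ b) (hN : L + 1 ≤ N) : Function.Injective (VE b N L x e) := by
  intro m m' hm
  rw [VE_eq x e hN, VE_eq x e hN] at hm
  have h6 : sg b L m = sg b L m' :=
    Nat.eq_of_mul_eq_mul_left (by positivity) (Nat.add_left_cancel hm)
  apply pv_inj_unif hb
  rw [pv_sg, pv_sg, h6]

lemma VE_class {b N L x : ℕ} (e : ℕ) (hb : 2 ≤ b) (hN : L + 1 ≤ N) (q h : ℕ) (hq : q.Coprime (2 * b)) :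
    |((((univ : Finset (Fin L → Fin b × Fin 1)).image (VE b N L x e)).filter
      (fun n => n % q = h % q)).card : ℝ) - (b : ℝ) ^ L / q| ≤ er b L q := by
  have hq0 : 0 < q := coprime_pos hq
  obtain ⟨r, hr⟩ := aff_dvd (N := N) (L := L) (n0 b N L x - b ^ N + e * b ^ N + h * (q - 1)) hq hq0
  have h1 := cnth_bound (s := b) (t := 1) (by omega) one_pos b L q r hq
  have h2 : ((b : ℝ) * (1 : ℕ)) ^ L = (b : ℝ) ^ L := by simp
  rw [h2] at h1
  rw [filter_image, card_image_of_injective _ (VE_inj hb hN)]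
  have h3 : (univ : Finset (Fin L → Fin b × Fin 1)).filter (fun m => VE b N L x e m % q = h % q) =
      univ.filter (fun m => pv b b 1 L m ≡ r [MOD q]) := by
    apply filter_congr
    intro m _
    rw [← hr m]
    have e1 : n0 b N L x - b ^ N + e * b ^ N + h * (q - 1) + b ^ (N - L - 1) * sg b L m =
        VE b N L x e m + h * (q - 1) := by
      rw [VE_eq x e hN]
      ring
    rw [e1]
    generalize VE b N L x e m = V
    obtain ⟨k, rfl⟩ : ∃ k, q = k + 1 := ⟨q - 1, by omega⟩
    rw [Nat.add_sub_cancel]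
    have e2 : h + h * k ≡ 0 [MOD k + 1] := Nat.modEq_zero_iff_dvd.2 ⟨h, by ring⟩
    constructor
    · intro h4
      have h5 : V + h * k ≡ h + h * k [MOD k + 1] := Nat.ModEq.add_right _ h4
      exact Nat.modEq_zero_iff_dvd.1 (h5.trans e2)
    · intro h4
      have h5 : V + h * k ≡ h + h * k [MOD k + 1] := (Nat.modEq_zero_iff_dvd.2 h4).trans e2.symm
      exact Nat.ModEq.add_right_cancel' _ h5
  rw [h3]
  exact h1

lemma fewB {b L N n B : ℕ} (hb : 2 ≤ b) (hB : B ≠ 0) (h1 : n ≠ 0) (h2 : n < b ^ (2 * N + 1))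
    (hp : ∀ p ∈ n.primeFactorsList, b ^ L < p ^ B) : n.primeFactorsList.length * L < B * (2 * N + 1) := by
  have h3 : ∀ l : List ℕ, (∀ p ∈ l, b ^ L < p ^ B) → (b ^ L) ^ l.length ≤ l.prod ^ B := by
    intro l
    induction l with
    | nil => intro _; simp
    | cons p l ih =>
      intro h
      rw [List.length_cons, List.prod_cons, pow_succ, mul_pow, mul_comm]
      exact Nat.mul_le_mul (h p (by simp)).le (ih fun q hq => h q (by simp [hq]))
  have h4 := h3 _ hp
  rw [Nat.prod_primeFactorsList h1, ← pow_mul] at h4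
  have h5 : n ^ B < (b ^ (2 * N + 1)) ^ B := Nat.pow_lt_pow_left h2 hB
  rw [← pow_mul] at h5
  have h6 := (Nat.pow_lt_pow_iff_right (by omega : 1 < b)).1 (h4.trans_lt h5)
  nlinarith

/-- the sieve conditions -/
def QQ (b N : ℕ) (E : Finset ℕ) (l n : ℕ) : Prop := ∃ e ∈ E, l ∣ n + e * b ^ N

/-- the local conditions -/
def Q2 (b N : ℕ) (E : Finset ℕ) (l n : ℕ) : Prop := (¬ l ∣ b ∧ l ≠ 2) ∧ QQ b N E l n

lemma QQ_per (b N : ℕ) (E : Finset ℕ) : PerB (QQ b N E) E.card := by
  classical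
  refine ⟨fun p n => ?_, fun p hp => ?_⟩
  · unfold QQ
    have h1 : ∀ e, p ∣ n + e * b ^ N ↔ p ∣ n % p + e * b ^ N := by
      intro e
      rw [Nat.dvd_iff_mod_eq_zero, Nat.dvd_iff_mod_eq_zero, Nat.mod_add_mod]
    simp only [h1]
  · have h1 : nuB (QQ b N E) p = ((range p).filter (fun r => QQ b N E p r)).card := by
      unfold nuB
      congr
    rw [h1]
    have h2 : (range p).filter (fun r => QQ b N E p r) ⊆
        E.biUnion (fun e => (range p).filter (fun r => p ∣ r + e * b ^ N)) := by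
      intro r hr
      rw [mem_filter] at hr
      obtain ⟨hr1, e, he, hd⟩ := hr
      rw [mem_biUnion]
      exact ⟨e, he, mem_filter.2 ⟨hr1, hd⟩⟩
    refine (card_le_card h2).trans (card_biUnion_le.trans ?_)
    calc ∑ e ∈ E, ((range p).filter (fun r => p ∣ r + e * b ^ N)).card ≤ ∑ _e ∈ E, 1 := by
          refine sum_le_sum fun e _ => ?_
          rw [card_le_one]
          intro r hr r' hr'
          rw [mem_filter, mem_range] at hr hr'
          have h3 : r + e * b ^ N ≡ r' + e * b ^ N [MOD p] :=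
            (Nat.modEq_zero_iff_dvd.2 hr.2).trans (Nat.modEq_zero_iff_dvd.2 hr'.2).symm
          exact Nat.ModEq.eq_of_lt_of_lt (Nat.ModEq.add_right_cancel' _ h3) hr.1 hr'.1
      _ = E.card := by simp

/-- a residue class without obstruction -/
lemma good_class {b : ℕ} (N : ℕ) {E : Finset ℕ} (hE4 : E.card ≤ 4)
    (h3 : ¬ 3 ∣ b → ∃ r : ℕ, ∀ e ∈ E, e % 3 ≠ r % 3) (D : Finset ℕ) (hD : ∀ p ∈ D, p.Prime)
    (hDb : ∀ p ∈ D, ¬ p ∣ b) (hD2 : ∀ p ∈ D, p ≠ 2) : ∃ n1 : ℕ, ∀ p ∈ D, ¬ QQ b N E p n1 := by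
  classical
  obtain ⟨n1, hn1⟩ := exists_class (Q2 b N E) (by
    intro p n
    unfold Q2
    rw [(QQ_per b N E).per p n]) (by
    intro p hp
    by_cases hc : ¬ p ∣ b ∧ p ≠ 2
    · have h1 : nuB (Q2 b N E) p ≤ nuB (QQ b N E) p := by
        unfold nuB
        apply card_le_card
        intro r hr
        rw [mem_filter] at hr ⊢
        exact ⟨hr.1, hr.2.2⟩
      have h2 := (QQ_per b N E).few p hp
      rcases Nat.lt_or_ge 4 p with h5 | h5
      · omega
      · have hp3 : p = 3 := by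
          have := hp.two_le
          interval_cases p
          · exact absurd rfl hc.2
          · rfl
          · exact absurd hp (by norm_num)
        subst hp3
        obtain ⟨r, hr⟩ := h3 hc.1
        -- the class of `- r * b ^ N` is free
        have h6 : (2 * r * b ^ N) % 3 ∉ (range 3).filter (fun n => QQ b N E 3 n) := by
          intro hmem
          rw [mem_filter] at hmem
          obtain ⟨_, e, he, hd⟩ := hmem
          rw [Nat.dvd_iff_mod_eq_zero, Nat.mod_add_mod, ← Nat.dvd_iff_mod_eq_zero] at hd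
          have h7 : 3 ∣ (2 * r + e) * b ^ N := by
            rw [add_mul]
            exact hd
          rcases (Nat.Prime.dvd_mul Nat.prime_three).1 h7 with h8 | h8
          · exact hr e he (by omega)
          · exact hc.1 (Nat.Prime.dvd_of_dvd_pow Nat.prime_three h8)
        have h7 : ((range 3).filter (fun n => QQ b N E 3 n)).card < 3 := by
          have h8 : (range 3).filter (fun n => QQ b N E 3 n) ⊂ range 3 := by
            refine ⟨filter_subset _ _, fun hsub => h6 (hsub (mem_range.2 (Nat.mod_lt _ (by norm_num))))⟩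
          simpa using card_lt_card h8
        refine lt_of_le_of_lt (h1.trans (le_of_eq ?_)) h7
        unfold nuB
        congr
    · have h1 : nuB (Q2 b N E) p = 0 := by
        unfold nuB
        rw [card_eq_zero, filter_eq_empty_iff]
        intro r _ h
        exact hc h.1
      rw [h1]
      exact hp.pos) D hD
  exact ⟨n1, fun p hp hq => hn1 p hp ⟨⟨hDb p hp, hD2 p hp⟩, hq⟩⟩

lemma prod_low {κ n1 : ℕ} (hκ : 1 ≤ κ) (hn1 : ∀ J : ℕ, ∏ l ∈ Pr κ J, (1 + (κ : ℝ) / l) ≤ ((2 : ℝ) ^ J) ^ n1)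
    (b J : ℕ) {Q : ℕ → ℕ → Prop} (hQ : PerB Q κ) :
    1 ≤ (∏ l ∈ (Pr κ J).filter (fun l => ¬ l ∣ b), (1 - (nuB Q l : ℝ) / l)) * (((2 : ℝ) ^ J) ^ n1) ^ 2 := by
  have hPp : ∀ l ∈ Pr κ J, l.Prime := fun l hl => (mem_filter.1 hl).2.1
  have hPk : ∀ l ∈ Pr κ J, 2 * κ < l := fun l hl => (mem_filter.1 hl).2.2
  have h0 : 0 ≤ ∏ l ∈ Pr κ J, (1 + (κ : ℝ) / l) := prod_nonneg fun l _ => by positivity
  have h1 : 0 ≤ ∏ l ∈ (Pr κ J).filter (fun l => ¬ l ∣ b), (1 - (nuB Q l : ℝ) / l) := by
    apply prod_nonneg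
    intro l hl
    have hl' := (mem_filter.1 hl).1
    have h2 : (nuB Q l : ℝ) ≤ l := by
      have h3 := hQ.few l (hPp l hl')
      have h4 := hPk l hl'
      exact_mod_cast (by omega : nuB Q l ≤ l)
    have h3 : (0 : ℝ) < l := by exact_mod_cast (hPp l hl').pos
    rw [sub_nonneg, div_le_one h3]
    exact h2
  calc (1 : ℝ) ≤ (∏ l ∈ (Pr κ J).filter (fun l => ¬ l ∣ b), (1 - (nuB Q l : ℝ) / l)) *
        (∏ l ∈ Pr κ J, (1 + (κ : ℝ) / l)) ^ 2 := by
        rw [prod_filter, ← prod_pow, ← prod_mul_distrib]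
        calc (1 : ℝ) = ∏ _l ∈ Pr κ J, (1 : ℝ) := by simp
          _ ≤ _ := by
              apply prod_le_prod (fun _ _ => zero_le_one)
              intro l hl
              have hl0 : (0 : ℝ) < l := by exact_mod_cast (hPp l hl).pos
              have hκ0 : (0 : ℝ) < κ := by exact_mod_cast hκ
              have ht : (κ : ℝ) / l ≤ 1 / 2 := by
                rw [div_le_iff₀ hl0]
                have : (2 * κ : ℝ) < l := by exact_mod_cast hPk l hl
                linarith
              have ht0 : 0 < (κ : ℝ) / l := by positivity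
              have hn : (nuB Q l : ℝ) / l ≤ κ / l := by
                apply div_le_div_of_nonneg_right _ hl0.le
                exact_mod_cast hQ.few l (hPp l hl)
              generalize (κ : ℝ) / l = t at *
              have h3 : (1 : ℝ) ≤ (1 - t) * (1 + t) ^ 2 := by nlinarith [mul_pos ht0 ht0]
              split_ifs
              · refine h3.trans (mul_le_mul_of_nonneg_right ?_ (by positivity))
                linarith
              · refine h3.trans (mul_le_mul_of_nonneg_right ?_ (by positivity))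
                linarith
    _ ≤ _ := by
        apply mul_le_mul_of_nonneg_left _ h1
        exact pow_le_pow_left₀ h0 (hn1 J) 2

end Pool.Agent.Y816.PS
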