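import Pool.Agent.Y816.PS.H

/-!
# Palindromes which differ only in the middle digit, all with few prime factors: the theorem
-/

set_option autoImplicit false

namespace Pool.Agent.Y816.PS

open Finset Filter Topology Pool.Agent.W89.PW Pool.Agent.W139.PX
open Pool.Agent.H373R2.T7 Pool.Agent.H410R2.ED
open Pool.Agent.H623R3.PBT8 (coprime_pos)
open Pool.Agent.Y816.PD (Z_le exists_class chooseJ)

/-- the prime factors of the members of the tuple -/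
lemma member {b N L x κ M J : ℕ} {E : Finset ℕ} (hb : 2 ≤ b) (hN : L + 1 ≤ N) (h1 : b ^ (2 * N) ≤ x)
    (h2 : x < b ^ (2 * N + 1)) (h3 : (x / b ^ (2 * N)).Coprime b) (hodd : ∀ e ∈ E, Even b ∨ Odd e)
    (hM : ∀ p : ℕ, p.Prime → 3 ≤ p → p ≤ 2 * κ → ¬ p ∣ b → p ∣ M) {n1 : ℕ}
    (hn1 : ∀ p : ℕ, p.Prime → 3 ≤ p → p ≤ 2 * κ → ¬ p ∣ b → ¬ QQ b N E p n1)
    (m : Fin L → Fin b × Fin 1) (hm1 : VE b N L x 0 m % M = n1 % M)
    (hm2 : ∀ l ∈ Pr κ J, ¬ l ∣ b → ¬ QQ b N E l (VE b N L x 0 m)) {e : ℕ} (he : e ∈ E) :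
    ∀ p : ℕ, p.Prime → p ∣ VE b N L x e m → 2 ^ 2 ^ J ≤ p := by
  intro p hp hd
  have hcop := VV_cop hb hN h2 h3 m
  have hadd := VE_add b N L x e m
  have hpb : ¬ p ∣ b := by
    intro hpb
    have h4 : p ∣ b ^ N := dvd_pow hpb (by omega)
    have h5 : p ∣ VV b N L x m + e * b ^ N := by
      rw [← hadd]
      exact dvd_add hd h4
    have h6 : p ∣ VV b N L x m := (Nat.dvd_add_left (h4.mul_left e)).1 h5
    exact hp.one_lt.ne' (Nat.Coprime.eq_one_of_dvd (hcop.coprime_dvd_left h6) (hpb.mul_left 2))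
  have hp2 : p ≠ 2 := by
    rintro rfl
    rcases hodd e he with hbe | hoe
    · exact hpb hbe.two_dvd
    · have hbo : Odd b := by
        rw [← Nat.not_even_iff_odd]
        exact fun h => hpb h.two_dvd
      have hbN : Odd (b ^ N) := hbo.pow
      have hVo : Odd (VV b N L x m) := by
        have : (VV b N L x m).Coprime 2 := hcop.coprime_dvd_right (dvd_mul_right 2 b)
        exact Nat.coprime_two_left.1 this.symm
      have h4 : Even (VV b N L x m + e * b ^ N) := hVo.add_odd (hoe.mul hbN)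
      have h5 : Odd (VE b N L x e m + b ^ N) := (even_iff_two_dvd.2 hd).add_odd hbN
      rw [hadd] at h5
      exact (Nat.not_even_iff_odd.2 h5) h4
  have hp3 : 3 ≤ p := by
    have := hp.two_le
    omega
  have hq : QQ b N E p (VE b N L x 0 m) := ⟨e, he, by rw [VE_shift]; exact hd⟩
  by_contra hcon
  push Not at hcon
  rcases Nat.lt_or_ge (2 * κ) p with h4 | h4
  · exact hm2 p (by
      unfold Pr
      rw [mem_filter, mem_range]
      exact ⟨hcon, hp, h4⟩) hpb hq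
  · have h5 := hM p hp hp3 h4 hpb
    apply hn1 p hp hp3 h4 hpb
    rw [(QQ_per b N E).per]
    rw [(QQ_per b N E).per, ← Nat.mod_mod_of_dvd _ h5, hm1, Nat.mod_mod_of_dvd _ h5] at hq
    exact hq

/-- **Palindromes which differ only in the middle digit, all with few prime factors.** -/
theorem tuples {b : ℕ} (hb : 2 ≤ b) (E : Finset ℕ) (hE : E.Nonempty) (hE4 : E.card ≤ 4) (hEb : ∀ e ∈ E, e < b)
    (hodd : ∀ e ∈ E, Even b ∨ Odd e) (h3 : ¬ 3 ∣ b → ∃ r : ℕ, ∀ e ∈ E, e % 3 ≠ r % 3) :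
    ∃ c : ℝ, 0 < c ∧ ∃ B L₀ : ℕ, ∀ L N x : ℕ, L₀ ≤ L → L < N →
    b ^ (2 * N) ≤ x → x < b ^ (2 * N + 1) → (x / b ^ (2 * N)).Coprime b →
    c * (b : ℝ) ^ L / (L : ℝ) ^ B ≤ (((range (b ^ (2 * N + 1))).filter (fun n => n / b ^ N % b = 0 ∧ ∀ e ∈ E,
      (Nat.digits b (n + e * b ^ N)).reverse = Nat.digits b (n + e * b ^ N) ∧
      (n + e * b ^ N) / b ^ (N + L + 1) = x / b ^ (N + L + 1) ∧
      (∀ p ∈ (n + e * b ^ N).primeFactorsList, b ^ L < p ^ B) ∧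
      (n + e * b ^ N).primeFactorsList.length * L < B * (2 * N + 1))).card : ℝ) := by
  classical
  obtain ⟨κ, hκE⟩ : ∃ κ, κ = E.card := ⟨_, rfl⟩
  have hκ : 1 ≤ κ := by rw [hκE]; exact hE.card_pos
  have hκ4 : κ ≤ 4 := by rw [hκE]; exact hE4
  obtain ⟨c, hc, hsv⟩ := svG κ hκ hκ4
  obtain ⟨n1, hn1⟩ := Z_le κ
  obtain ⟨Dm, hDm⟩ : ∃ Dm : Finset ℕ, Dm = (Icc 3 (2 * κ)).filter (fun p => p.Prime ∧ ¬ p ∣ b) := ⟨_, rfl⟩
  have hDmp : ∀ p ∈ Dm, p.Prime := fun p hp => by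
    rw [hDm, mem_filter] at hp; exact hp.2.1
  obtain ⟨M, hM⟩ : ∃ M : ℕ, M = ∏ p ∈ Dm, p := ⟨_, rfl⟩
  have hM0 : 0 < M := by
    rw [hM]
    exact prod_pos fun p hp => (hDmp p hp).pos
  have hMc : M.Coprime (2 * b) := by
    rw [hM]
    refine Nat.Coprime.prod_left fun p hp => (Nat.Prime.coprime_iff_not_dvd (hDmp p hp)).2 fun hd => ?_
    rw [hDm, mem_filter, mem_Icc] at hp
    rcases (Nat.Prime.dvd_mul hp.2.1).1 hd with h | h
    · have := Nat.le_of_dvd (by norm_num) h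
      omega
    · exact hp.2.2 h
  have hMp : ∀ p : ℕ, p.Prime → p ∣ M → p ≤ 2 * κ := by
    intro p hp hd
    rw [hM] at hd
    obtain ⟨q, hq, hpq⟩ := (Nat.Prime.prime hp).exists_mem_finset_dvd hd
    have h4 := (Nat.prime_dvd_prime_iff_eq hp (hDmp q hq)).1 hpq
    rw [hDm, mem_filter, mem_Icc] at hq
    omega
  have hMd : ∀ p : ℕ, p.Prime → 3 ≤ p → p ≤ 2 * κ → ¬ p ∣ b → p ∣ M := by
    intro p hp hp3 hp4 hpb
    rw [hM]
    exact dvd_prod_of_mem (fun p => p) (by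
      rw [hDm, mem_filter, mem_Icc]
      exact ⟨⟨hp3, hp4⟩, hp, hpb⟩)
  have hbR : (2 : ℝ) ≤ b := by exact_mod_cast hb
  have hb0 : (0 : ℝ) < b := by linarith
  have hMR : (0 : ℝ) < M := by exact_mod_cast hM0
  obtain ⟨B, hB⟩ : ∃ B : ℕ, B = 64 * c + 2 * n1 + 1 := ⟨_, rfl⟩
  obtain ⟨c0, hc0⟩ : ∃ c0 : ℝ, c0 = 1 / (4 * M * (b : ℝ) ^ (2 * n1)) := ⟨_, rfl⟩
  have hc00 : 0 < c0 := by rw [hc0]; positivity
  have e1 := er_final hb (2 * n1 + 3)
  have e2 : ∀ᶠ L : ℕ in atTop, 64 * (16 * c * (M + 1)) ≤ L := eventually_ge_atTop _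
  have e3 : ∀ᶠ L : ℕ in atTop, 4 * M * (b : ℝ) ^ (2 * n1 + 1) ≤ (L : ℝ) :=
    tendsto_natCast_atTop_atTop.eventually_ge_atTop _
  obtain ⟨L0, hL0⟩ := eventually_atTop.1 (e1.and (e2.and e3))
  refine ⟨c0, hc00, B, max L0 1, fun L N x hL hN h1 h2 h4 => ?_⟩
  obtain ⟨f1, f2, f3⟩ := hL0 L ((le_max_left _ _).trans hL)
  have hL1 : 1 ≤ L := (le_max_right _ _).trans hL
  have hL1R : (1 : ℝ) ≤ L := by exact_mod_cast hL1
  have hLpos : (0 : ℝ) < L := by linarith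
  obtain ⟨J, hJ1, hJ2, hJ3, -, hJ5⟩ := chooseJ (b := b) (E := c) (M := M) (K := L) hb hc (by omega)
  obtain ⟨r, hr⟩ := good_class N hE4 h3 Dm hDmp (by
    intro p hp
    rw [hDm, mem_filter] at hp
    exact hp.2.2) (by
    intro p hp
    rw [hDm, mem_filter, mem_Icc] at hp
    omega)
  obtain ⟨Y, hY⟩ : ∃ Y : ℕ, Y = ⌊(b : ℝ) ^ ((49 / 100 : ℝ) * L)⌋₊ := ⟨_, rfl⟩
  have hYle : M * (2 ^ 2 ^ J) ^ c ≤ Y := by
    refine hJ1.trans ?_
    rw [hY]
    apply Nat.le_floor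
    push_cast
    rw [← Real.rpow_natCast]
    apply Real.rpow_le_rpow_of_exponent_le (by linarith)
    have : ((L / 4 : ℕ) : ℝ) ≤ (L : ℝ) / 4 := Nat.cast_div_le
    linarith
  have hper : PerB (QQ b N E) κ := by rw [hκE]; exact QQ_per b N E
  have hmain := hsv b ((univ : Finset (Fin L → Fin b × Fin 1)).image (VE b N L x 0)) ((b : ℝ) ^ L) (er b L)
    (by positivity) (er_nonneg b L) (fun q h hq => by
      have := VE_class (x := x) 0 hb hN q h hq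
      convert this) M hM0 hMc hMp (QQ b N E) hper r J Y hYle
  rw [← hY] at f1
  obtain ⟨P, hP⟩ : ∃ P : ℝ, P = ∏ l ∈ (Pr κ J).filter (fun l => ¬ l ∣ b), (1 - (nuB (QQ b N E) l : ℝ) / l) :=
    ⟨_, rfl⟩
  rw [← hP] at hmain
  have hPlow := prod_low hκ hn1 b J hper
  rw [← hP] at hPlow
  have h2J : (2 : ℝ) ^ J ≤ b * L := by exact_mod_cast hJ5
  have h2J0 : (1 : ℝ) ≤ 2 ^ J := one_le_pow₀ (by norm_num)
  -- lower bound of the product
  have hP1 : 1 ≤ P * (b * L) ^ (2 * n1) := by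
    have hP0 : 0 < P := by
      by_contra hcon
      push Not at hcon
      have : P * (((2 : ℝ) ^ J) ^ n1) ^ 2 ≤ 0 := mul_nonpos_of_nonpos_of_nonneg hcon (by positivity)
      linarith
    refine hPlow.trans (mul_le_mul_of_nonneg_left ?_ hP0.le)
    rw [← pow_mul, mul_comm n1 2]
    exact pow_le_pow_left₀ (by positivity) h2J _
  have hcount : c0 * (b : ℝ) ^ L / (L : ℝ) ^ B ≤
      (b : ℝ) ^ L / M / 2 * P - 2 ^ J * ∑ q ∈ (Icc 1 Y).filter (fun q => q.Coprime (2 * b)),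
        (q.divisors.card : ℝ) ^ 2 * er b L q := by
    have g1 : 2 ^ J * ∑ q ∈ (Icc 1 Y).filter (fun q => q.Coprime (2 * b)),
        (q.divisors.card : ℝ) ^ 2 * er b L q ≤ (b * L) * ((b : ℝ) ^ L / (L : ℝ) ^ (2 * n1 + 3)) := by
      apply mul_le_mul h2J f1 (sum_nonneg fun q _ => mul_nonneg (by positivity) (er_nonneg _ _ _)) (by positivity)
    have g2 : (b * L) * ((b : ℝ) ^ L / (L : ℝ) ^ (2 * n1 + 3)) = b / (L : ℝ) ^ 2 * ((b : ℝ) ^ L / (L : ℝ) ^ (2 * n1)) := by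
      rw [pow_add]
      field_simp
    have g3 : 1 / ((b : ℝ) * L) ^ (2 * n1) ≤ P := by
      rw [div_le_iff₀ (by positivity)]
      exact hP1
    have g4 : (b : ℝ) ^ L / M / 2 * (1 / ((b : ℝ) * L) ^ (2 * n1)) = 2 * c0 * ((b : ℝ) ^ L / (L : ℝ) ^ (2 * n1)) := by
      rw [hc0, mul_pow]
      field_simp
      ring
    have g5 : (b : ℝ) ^ L / M / 2 * (1 / ((b : ℝ) * L) ^ (2 * n1)) ≤ (b : ℝ) ^ L / M / 2 * P :=
      mul_le_mul_of_nonneg_left g3 (by positivity)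
    have g6 : (b : ℝ) / (L : ℝ) ^ 2 ≤ c0 := by
      rw [hc0, div_le_div_iff₀ (by positivity) (by positivity), one_mul]
      have g7 : (L : ℝ) ≤ (L : ℝ) ^ 2 := by nlinarith
      calc (b : ℝ) * (4 * M * (b : ℝ) ^ (2 * n1)) = 4 * M * (b : ℝ) ^ (2 * n1 + 1) := by rw [pow_succ]; ring
        _ ≤ L := f3
        _ ≤ _ := g7
    have g8 : (b : ℝ) / (L : ℝ) ^ 2 * ((b : ℝ) ^ L / (L : ℝ) ^ (2 * n1)) ≤ c0 * ((b : ℝ) ^ L / (L : ℝ) ^ (2 * n1)) :=
      mul_le_mul_of_nonneg_right g6 (by positivity)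
    have g9 : c0 * (b : ℝ) ^ L / (L : ℝ) ^ B ≤ c0 * ((b : ℝ) ^ L / (L : ℝ) ^ (2 * n1)) := by
      rw [mul_div_assoc]
      apply mul_le_mul_of_nonneg_left _ hc00.le
      apply div_le_div_of_nonneg_left (by positivity) (by positivity)
      exact pow_le_pow_right₀ hL1R (by omega)
    rw [g2] at g1
    rw [g4] at g5
    linarith
  refine (hcount.trans hmain).trans ?_
  rw [Nat.cast_le]
  apply card_le_card
  intro n hn
  rw [mem_filter, mem_image] at hn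
  obtain ⟨⟨m, _, rfl⟩, g1, g2⟩ := hn
  have hmem : ∀ e ∈ E, ∀ p : ℕ, p.Prime → p ∣ VE b N L x e m → 2 ^ 2 ^ J ≤ p := fun e he =>
    member (J := J) hb hN h1 h2 h4 hodd hMd (n1 := r) (fun p hp hp3 hp4 hpb => hr p (by
      rw [hDm, mem_filter, mem_Icc]
      exact ⟨⟨hp3, hp4⟩, hp, hpb⟩)) m g1 (fun l hl hlb => g2 l hl hlb) he
  have hlt : ∀ e, e < b → VE b N L x e m < b ^ (2 * N + 1) := fun e he =>
    sum_lt (fun i => ae_lt hb N L x he m _) _
  rw [mem_filter, mem_range]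
  refine ⟨hlt 0 (by omega), ?_, fun e he => ?_⟩
  · exact pal_mid hb (fun i => ae_lt hb N L x (by omega : 0 < b) m i) (ae_top hb hN h2 h1 m)
  · rw [VE_shift]
    have hp : ∀ p ∈ (VE b N L x e m).primeFactorsList, b ^ L < p ^ B := by
      intro p hp
      have hpp := Nat.prime_of_mem_primeFactorsList hp
      have hz := hmem e he p hpp (Nat.dvd_of_mem_primeFactorsList hp)
      calc b ^ L ≤ (2 ^ 2 ^ J) ^ (64 * c) := hJ3
        _ ≤ p ^ (64 * c) := Nat.pow_le_pow_left hz _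
        _ < p ^ B := Nat.pow_lt_pow_right hpp.one_lt (by omega)
    refine ⟨?_, ?_, hp, ?_⟩
    · exact pal_reverse hb (fun i => ae_lt hb N L x (hEb e he) m i) (ae_top hb hN h2 h1 m)
    · exact pal_div hb hN h2 (fun i => ae_lt hb N L x (hEb e he) m i) (fun j hj => ae_out m hj)
    · refine fewB hb (by omega) ?_ (hlt e (hEb e he)) hp
      intro h0
      have hdiv : VE b N L x e m / b ^ (N + L + 1) = x / b ^ (N + L + 1) :=
        pal_div hb hN h2 (fun i => ae_lt hb N L x (hEb e he) m i) (fun j hj => ae_out m hj)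
      rw [h0, Nat.zero_div] at hdiv
      have : 0 < x / b ^ (N + L + 1) :=
        Nat.div_pos ((Nat.pow_le_pow_right (by omega) (by omega)).trans h1) (by positivity)
      omega

end Pool.Agent.Y816.PS
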