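import Pool.Agent.Y816.PS.I

/-!
# Palindromes in residue classes with few prime factors
-/

set_option autoImplicit false

namespace Pool.Agent.Y816.PS

open Finset Filter Topology Pool.Agent.H373R2.T7 Pool.Agent.H410R2.ED Pool.Agent.Helper112.LP
open Pool.Agent.Helper112.LP.Kba Pool.Agent.Helper112.LP.Kbh Pool.Agent.H483R2.BHKD
open Pool.Agent.Y816.PD (bh2 Z_le crt_card chooseJ)
open Pool.Agent.W89.PW (pv)

open Classical in
/-- **The sieve**, with the primes dividing `s` left out -/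
theorem svS (κ : ℕ) (hκ : 1 ≤ κ) (hκ4 : κ ≤ 4) : ∃ c : ℕ, 1 ≤ c ∧ ∀ (b s : ℕ), b ∣ s → ∀ (S : Finset ℕ) (X : ℝ) (ER : ℕ → ℝ),
    0 ≤ X → (∀ q, 0 ≤ ER q) →
    (∀ q h : ℕ, q.Coprime (2 * b) → |((S.filter (fun n => n % q = h % q)).card : ℝ) - X / q| ≤ ER q) →
    ∀ M : ℕ, 0 < M → M.Coprime (2 * b) → (∀ p : ℕ, p.Prime → p ∣ M → p ≤ 2 * κ ∨ p ∣ s) →
    ∀ Q : ℕ → ℕ → Prop, PerB Q κ → ∀ (n0 J Y : ℕ), M * (2 ^ 2 ^ J) ^ c ≤ Y →
    X / M / 2 * (∏ l ∈ (Pr κ J).filter (fun l => ¬ l ∣ s), (1 - (nuB Q l : ℝ) / l)) -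
      2 ^ J * ∑ q ∈ (Icc 1 Y).filter (fun q => q.Coprime (2 * b)), (q.divisors.card : ℝ) ^ 2 * ER q ≤
      ((S.filter (fun n => n % M = n0 % M ∧ ∀ l ∈ Pr κ J, ¬ l ∣ s → ¬ Q l n)).card : ℝ) := by
  obtain ⟨c, hc, hbh⟩ := bh2 κ hκ
  refine ⟨c, hc, ?_⟩
  intro b s hbs S X ER hX hER hS M hM hMb hMs Q hQ n0 J Y hY
  have hPp : ∀ l ∈ Pr κ J, l.Prime := fun l hl => (mem_filter.1 hl).2.1
  have hPk : ∀ l ∈ Pr κ J, 2 * κ < l := fun l hl => (mem_filter.1 hl).2.2
  obtain ⟨f, hf⟩ : ∃ f : ℕ → ℕ, f = fun n => ∏ l ∈ (Pr κ J).filter (fun l => ¬ l ∣ s ∧ Q l n), l := ⟨_, rfl⟩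
  have hfd : ∀ l ∈ Pr κ J, ∀ n, l ∣ f n ↔ (¬ l ∣ s ∧ Q l n) := by
    intro l hl n
    rw [hf]
    simp only
    constructor
    · intro h
      obtain ⟨l', hl', hd⟩ := (Nat.Prime.prime (hPp l hl)).exists_mem_finset_dvd h
      rw [mem_filter] at hl'
      have := (Nat.prime_dvd_prime_iff_eq (hPp l hl) (hPp l' hl'.1)).1 hd
      rw [this]
      exact hl'.2
    · intro h
      exact dvd_prod_of_mem (fun l => l) (mem_filter.2 ⟨hl, h⟩)
  obtain ⟨g, hg⟩ : ∃ g : ℕ → ℝ, g = fun l => if l ∣ s then 0 else (nuB Q l : ℝ) / l := ⟨_, rfl⟩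
  obtain ⟨err, herr⟩ : ∃ err : Finset ℕ → ℝ, err = fun D => if ∀ l ∈ D, ¬ l ∣ s then
      (κ : ℝ) ^ D.card * ER (M * ∏ l ∈ D, l) else 0 := ⟨_, rfl⟩
  have hmain := (hbh g (by
    intro l hl hl2
    have hl0 : (0 : ℝ) < l := by exact_mod_cast hl.pos
    rw [hg]
    simp only
    split_ifs
    · exact ⟨le_rfl, by positivity⟩
    · refine ⟨by positivity, div_le_div_of_nonneg_right ?_ hl0.le⟩
      exact_mod_cast hQ.few l hl) J (S.filter (fun n => n % M = n0 % M)) f (fun _ => 1)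
    (X / M) err (by positivity)
    (fun _ _ => zero_le_one) (by
      intro D
      rw [herr]
      simp only
      split_ifs
      · exact mul_nonneg (by positivity) (hER _)
      · exact le_rfl) (by
      intro D hD _
      have hDp : ∀ l ∈ D, l.Prime := fun l hl => hPp l (hD hl)
      rw [sum_const, nsmul_eq_mul, mul_one, herr]
      simp only
      split_ifs with hDb
      · have h1 := local_gen hS M n0 hM hMb Q hQ.per D hDp (by
          intro l hl hlM
          rcases hMs l (hDp l hl) hlM with h | h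
          · have := hPk l (hD hl)
            omega
          · exact hDb l hl h) (by
          intro l hl hd
          rcases (Nat.Prime.dvd_mul (hDp l hl)).1 hd with h | h
          · have := Nat.le_of_dvd (by norm_num) h
            have := hPk l (hD hl)
            omega
          · exact hDb l hl (h.trans hbs))
        have e1 : (S.filter (fun n => n % M = n0 % M)).filter (fun n => ∀ l ∈ D, l ∣ f n) =
            S.filter (fun n => n % M = n0 % M ∧ ∀ l ∈ D, Q l n) := by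
          rw [filter_filter]
          apply filter_congr
          intro n _
          apply and_congr_right
          intro _
          constructor
          · exact fun h l hl => ((hfd l (hD hl) n).1 (h l hl)).2
          · exact fun h l hl => (hfd l (hD hl) n).2 ⟨hDb l hl, h l hl⟩
        have e2 : ∏ l ∈ D, g l = ∏ l ∈ D, ((nuB Q l : ℝ) / l) := by
          apply prod_congr rfl
          intro l hl
          rw [hg]
          simp only
          rw [if_neg (hDb l hl)]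
        rw [e1, e2]
        refine h1.trans ?_
        apply mul_le_mul_of_nonneg_right _ (hER _)
        rw [← prod_const]
        apply prod_le_prod (fun l _ => by positivity)
        intro l hl
        exact_mod_cast hQ.few l (hDp l hl)
      · push Not at hDb
        obtain ⟨l, hl, hlb⟩ := hDb
        have e1 : (S.filter (fun n => n % M = n0 % M)).filter (fun n => ∀ l ∈ D, l ∣ f n) = ∅ := by
          rw [filter_eq_empty_iff]
          intro n _ h
          exact ((hfd l (hD hl) n).1 (h l hl)).1 hlb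
        have e2 : ∏ l ∈ D, g l = 0 := by
          apply prod_eq_zero hl
          rw [hg]
          simp only
          rw [if_pos hlb]
        rw [e1, e2]
        simp)).1
  have e3 : ∑ n ∈ (S.filter (fun n => n % M = n0 % M)).filter
      (fun n => ∀ l ∈ Pr κ J, ¬ l ∣ f n), (1 : ℝ) =
      ((S.filter (fun n => n % M = n0 % M ∧ ∀ l ∈ Pr κ J, ¬ l ∣ s → ¬ Q l n)).card : ℝ) := by
    rw [sum_const, nsmul_eq_mul, mul_one, filter_filter]
    congr 2
    apply filter_congr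
    intro n _
    apply and_congr_right
    intro _
    constructor
    · exact fun h l hl hlb hq => h l hl ((hfd l hl n).2 ⟨hlb, hq⟩)
    · exact fun h l hl hd => h l hl ((hfd l hl n).1 hd).1 ((hfd l hl n).1 hd).2
  have e4 : ∏ l ∈ Pr κ J, (1 - g l) =
      ∏ l ∈ (Pr κ J).filter (fun l => ¬ l ∣ s), (1 - (nuB Q l : ℝ) / l) := by
    rw [prod_filter]
    apply prod_congr rfl
    intro l _
    rw [hg]
    simp only
    split_ifs <;> simp
  rw [e3, e4] at hmain
  -- the errors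
  have hEle : ∑ D ∈ (Pr κ J).powerset.filter (fun D => ∏ l ∈ D, l ≤ (2 ^ 2 ^ J) ^ c), err D ≤
      ∑ q ∈ (Icc 1 Y).filter (fun q => q.Coprime (2 * b)), (q.divisors.card : ℝ) ^ 2 * ER q := by
    obtain ⟨W, hW⟩ : ∃ W, W = ((Pr κ J).powerset.filter (fun D => ∏ l ∈ D, l ≤ (2 ^ 2 ^ J) ^ c)).filter
        (fun D => ∀ l ∈ D, ¬ l ∣ s) := ⟨_, rfl⟩
    have e5 : ∑ D ∈ (Pr κ J).powerset.filter (fun D => ∏ l ∈ D, l ≤ (2 ^ 2 ^ J) ^ c), err D =
        ∑ D ∈ W, (κ : ℝ) ^ D.card * ER (M * ∏ l ∈ D, l) := by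
      rw [hW, sum_filter (fun D => ∀ l ∈ D, ¬ l ∣ s), herr]
    have hWp : ∀ D ∈ W, ∀ l ∈ D, l ∈ Pr κ J := by
      intro D hD l hl
      rw [hW, mem_filter, mem_filter, mem_powerset] at hD
      exact hD.1.1 hl
    have hinj : Set.InjOn (fun D : Finset ℕ => M * ∏ l ∈ D, l) W := by
      intro D hD D' hD' h
      simp only at h
      have h1 := Nat.eq_of_mul_eq_mul_left hM h
      rw [← Nat.primeFactors_prod (s := D) (fun l hl => hPp l (hWp D hD l hl)),
        ← Nat.primeFactors_prod (s := D') (fun l hl => hPp l (hWp D' hD' l hl)), h1]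
    rw [e5]
    calc ∑ D ∈ W, (κ : ℝ) ^ D.card * ER (M * ∏ l ∈ D, l)
        ≤ ∑ D ∈ W, ((M * ∏ l ∈ D, l).divisors.card : ℝ) ^ 2 * ER (M * ∏ l ∈ D, l) :=
          sum_le_sum fun D hD => mul_le_mul_of_nonneg_right
            (pow_card_le_tau hκ4 hM D (fun l hl => hPp l (hWp D hD l hl))) (hER _)
      _ = ∑ q ∈ W.image (fun D : Finset ℕ => M * ∏ l ∈ D, l), (q.divisors.card : ℝ) ^ 2 * ER q :=
          (sum_image (f := fun q : ℕ => (q.divisors.card : ℝ) ^ 2 * ER q) hinj).symm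
      _ ≤ _ := by
          apply sum_le_sum_of_subset_of_nonneg
          · intro q hq
            rw [mem_image] at hq
            obtain ⟨D, hD, rfl⟩ := hq
            have hD' := hD
            rw [hW, mem_filter, mem_filter, mem_powerset] at hD'
            rw [mem_filter, mem_Icc]
            refine ⟨⟨Nat.mul_pos hM (prod_pos fun l hl => (hPp l (hWp D hD l hl)).pos), ?_⟩, ?_⟩
            · exact (Nat.mul_le_mul_left M hD'.1.2).trans hY
            · refine Nat.Coprime.mul_left hMb (Nat.Coprime.prod_left fun l hl => ?_)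
              have hlp := hPp l (hWp D hD l hl)
              refine (Nat.Prime.coprime_iff_not_dvd hlp).2 fun hd => ?_
              rcases (Nat.Prime.dvd_mul hlp).1 hd with h | h
              · have := Nat.le_of_dvd (by norm_num) h
                have := hPk l (hWp D hD l hl)
                omega
              · exact hD'.2 l hl (h.trans hbs)
          · intro q _ _
            exact mul_nonneg (by positivity) (hER q)
  have hJ : (J : ℝ) + 1 ≤ 2 ^ J := by
    have : J + 1 ≤ 2 ^ J := Nat.lt_two_pow_self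
    exact_mod_cast this
  have hR0 : 0 ≤ ∑ q ∈ (Icc 1 Y).filter (fun q => q.Coprime (2 * b)), (q.divisors.card : ℝ) ^ 2 * ER q :=
    sum_nonneg fun q _ => mul_nonneg (by positivity) (hER q)
  have hE0 : 0 ≤ ∑ D ∈ (Pr κ J).powerset.filter (fun D => ∏ l ∈ D, l ≤ (2 ^ 2 ^ J) ^ c), err D := by
    apply sum_nonneg
    intro D _
    rw [herr]
    simp only
    split_ifs
    · exact mul_nonneg (by positivity) (hER _)
    · exact le_rfl
  have hEJ : ((J : ℝ) + 1) * ∑ D ∈ (Pr κ J).powerset.filter (fun D => ∏ l ∈ D, l ≤ (2 ^ 2 ^ J) ^ c), err D ≤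
      2 ^ J * ∑ q ∈ (Icc 1 Y).filter (fun q => q.Coprime (2 * b)), (q.divisors.card : ℝ) ^ 2 * ER q :=
    mul_le_mul hJ hEle hE0 (by positivity)
  linarith

/-- the condition of the sieve -/
def Dv (l n : ℕ) : Prop := l ∣ n

lemma coprime_pos' {n b : ℕ} (h : n.Coprime (2 * b)) : 0 < n := Pool.Agent.H623R3.PBT8.coprime_pos h

/-- **Almost prime palindromes with prescribed outer digits in residue classes.** -/
theorem palclass : ∃ B : ℕ, ∀ b : ℕ, 2 ≤ b → ∀ M a : ℕ, 0 < M → M.Coprime (2 * b) → a.Coprime M →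
    ∃ c : ℝ, 0 < c ∧ ∃ L₀ : ℕ, ∀ L N x : ℕ, L₀ ≤ L → L < N →
    b ^ (2 * N) ≤ x → x < b ^ (2 * N + 1) → (x / b ^ (2 * N)).Coprime b →
    c * (b : ℝ) ^ L / L ≤ (((range (b ^ (2 * N + 1))).filter (fun n =>
      (Nat.digits b n).reverse = Nat.digits b n ∧ n / b ^ (N + L + 1) = x / b ^ (N + L + 1) ∧ n % M = a % M ∧
      (∀ p ∈ n.primeFactorsList, b ^ L < p ^ B) ∧
      n.primeFactorsList.length * L < B * (2 * N + 1))).card : ℝ) := by
  classical
  obtain ⟨c, hc, hsv⟩ := svS 1 le_rfl (by norm_num)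
  refine ⟨64 * c + 1, fun b hb M a hM0 hMc ha => ?_⟩
  obtain ⟨s, hs⟩ : ∃ s, s = b * M := ⟨_, rfl⟩
  have hs0 : s ≠ 0 := by rw [hs]; positivity
  have hbR : (2 : ℝ) ≤ b := by exact_mod_cast hb
  have hb0 : (0 : ℝ) < b := by linarith
  have hMR : (0 : ℝ) < M := by exact_mod_cast hM0
  obtain ⟨K, hK⟩ : ∃ K, K = Pool.Agent.W89.Sv.cV (2 * s) := ⟨_, rfl⟩
  have hK0 : 0 < K := by rw [hK]; exact Pool.Agent.W89.Sv.cV_pos _
  have hV := Pool.Agent.W89.Sv.V_lim (2 * s) (by omega)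
  rw [← hK] at hV
  obtain ⟨z0, hz0⟩ := eventually_atTop.1 (hV.eventually_const_lt (show K / 2 < K by linarith))
  obtain ⟨c0, hc0⟩ : ∃ c0 : ℝ, c0 = K / (8 * M * b) := ⟨_, rfl⟩
  have hc00 : 0 < c0 := by rw [hc0]; positivity
  have e1 := er_final hb 3
  have e2 : ∀ᶠ L : ℕ in atTop, 64 * (16 * c * (M + 1)) ≤ L := eventually_ge_atTop _
  have e3 : ∀ᶠ L : ℕ in atTop, b / c0 ≤ (L : ℝ) := tendsto_natCast_atTop_atTop.eventually_ge_atTop _
  have e4 : ∀ᶠ L : ℕ in atTop, z0 ^ (64 * c) ≤ L := eventually_ge_atTop _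
  obtain ⟨L0, hL0⟩ := eventually_atTop.1 (e1.and (e2.and (e3.and e4)))
  refine ⟨c0, hc00, max L0 1, fun L N x hL hN h1 h2 h4 => ?_⟩
  obtain ⟨f1, f2, f3, f4⟩ := hL0 L ((le_max_left _ _).trans hL)
  have hL1 : 1 ≤ L := (le_max_right _ _).trans hL
  have hL1R : (1 : ℝ) ≤ L := by exact_mod_cast hL1
  have hLpos : (0 : ℝ) < L := by linarith
  obtain ⟨J, hJ1, hJ2, hJ3, -, hJ5⟩ := chooseJ (b := b) (E := c) (M := M) (K := L) hb hc (by omega)
  obtain ⟨Y, hY⟩ : ∃ Y : ℕ, Y = ⌊(b : ℝ) ^ ((49 / 100 : ℝ) * L)⌋₊ := ⟨_, rfl⟩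
  have hYle : M * (2 ^ 2 ^ J) ^ c ≤ Y := by
    refine hJ1.trans ?_
    rw [hY]
    apply Nat.le_floor
    push_cast
    rw [← Real.rpow_natCast]
    apply Real.rpow_le_rpow_of_exponent_le (by linarith)
    have : ((L / 4 : ℕ) : ℝ) ≤ (L : ℝ) / 4 := Nat.cast_div_le
    linarith
  have hnu : ∀ l : ℕ, l.Prime → nuB Dv l = 1 := by
    intro l hl
    unfold nuB
    rw [card_eq_one]
    refine ⟨0, ?_⟩
    ext r
    simp only [mem_filter, mem_range, mem_singleton]
    constructor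
    · rintro ⟨h, hd⟩
      exact Nat.eq_zero_of_dvd_of_lt hd h
    · rintro rfl
      exact ⟨hl.pos, dvd_zero _⟩
  have hper : PerB Dv 1 := by
    refine ⟨fun p n => ?_, fun p hp => (hnu p hp).le⟩
    unfold Dv
    rw [Nat.dvd_iff_mod_eq_zero, Nat.dvd_iff_mod_eq_zero, Nat.mod_mod]
  have hmain := hsv b s ⟨M, hs⟩ ((univ : Finset (Fin L → Fin b × Fin 1)).image (VE b N L x 1)) ((b : ℝ) ^ L)
    (er b L) (by positivity) (er_nonneg b L) (fun q h hq => by
      have := VE_class (x := x) 1 hb hN q h hq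
      convert this) M hM0 hMc (fun p hp hd => Or.inr (by rw [hs]; exact hd.mul_left b)) _ hper a J Y hYle
  rw [← hY] at f1
  have hprod : ∏ l ∈ (Pr 1 J).filter (fun l => ¬ l ∣ s), (1 - (nuB Dv l : ℝ) / l) =
      Pool.Agent.W89.Sv.VZ (2 * s) (2 ^ 2 ^ J) := by
    unfold Pool.Agent.W89.Sv.VZ
    have hset : (Pr 1 J).filter (fun l => ¬ l ∣ s) = Pool.Agent.W89.Sv.PP (2 * s) (2 ^ 2 ^ J) := by
      ext l
      unfold Pr
      rw [mem_filter, mem_filter, mem_range, Pool.Agent.W89.Sv.mem_PP]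
      constructor
      · rintro ⟨⟨g1, g2, g3⟩, g4⟩
        refine ⟨g1, g2, fun hd => ?_⟩
        rcases (Nat.Prime.dvd_mul g2).1 hd with h | h
        · have := Nat.le_of_dvd (by norm_num) h
          omega
        · exact g4 h
      · rintro ⟨g1, g2, g3⟩
        refine ⟨⟨g1, g2, ?_⟩, fun h => g3 (h.mul_left 2)⟩
        have g4 := g2.two_le
        rcases Nat.lt_or_ge 2 l with h | h
        · omega
        · exfalso
          apply g3
          rw [show l = 2 by omega]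
          exact dvd_mul_right 2 s
    rw [hset]
    apply prod_congr rfl
    intro l hl
    rw [hnu l (Pool.Agent.W89.Sv.mem_PP.1 hl).2.1, Nat.cast_one]
  rw [hprod] at hmain
  have h2J : (2 : ℝ) ^ J ≤ b * L := by exact_mod_cast hJ5
  have hzz : z0 ≤ 2 ^ 2 ^ J := by
    by_contra hcon
    push Not at hcon
    have g1 : (2 ^ 2 ^ J) ^ (64 * c) ≤ z0 ^ (64 * c) := Nat.pow_le_pow_left hcon.le _
    have g2 : L < b ^ L := Nat.lt_pow_self (by omega)
    omega
  have hVlow := hz0 _ hzz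
  have hlog : Real.log (((2 ^ 2 ^ J : ℕ) : ℝ)) ≤ b * L := by
    push_cast
    rw [Real.log_pow]
    have h3 : Real.log 2 ≤ 1 := by
      have := Real.log_two_lt_d9
      linarith
    have h5 : (0 : ℝ) ≤ 2 ^ J := by positivity
    push_cast
    nlinarith [Real.log_pos (show (1 : ℝ) < 2 by norm_num)]
  have hVpos : 0 < Pool.Agent.W89.Sv.VZ (2 * s) (2 ^ 2 ^ J) := Pool.Agent.W89.Sv.VZ_pos _ _
  obtain ⟨V, hVd⟩ : ∃ V, V = Pool.Agent.W89.Sv.VZ (2 * s) (2 ^ 2 ^ J) := ⟨_, rfl⟩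
  rw [← hVd] at hmain hVlow hVpos
  have hVL : K / (2 * (b * L)) ≤ V := by
    rw [div_le_iff₀ (by positivity)]
    have := mul_le_mul_of_nonneg_left hlog hVpos.le
    linarith
  have hcount : c0 * (b : ℝ) ^ L / L ≤
      (b : ℝ) ^ L / M / 2 * V - 2 ^ J * ∑ q ∈ (Icc 1 Y).filter (fun q => q.Coprime (2 * b)),
        (q.divisors.card : ℝ) ^ 2 * er b L q := by
    have g1 : 2 ^ J * ∑ q ∈ (Icc 1 Y).filter (fun q => q.Coprime (2 * b)),
        (q.divisors.card : ℝ) ^ 2 * er b L q ≤ (b * L) * ((b : ℝ) ^ L / (L : ℝ) ^ 3) := by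
      apply mul_le_mul h2J f1 (sum_nonneg fun q _ => mul_nonneg (by positivity) (er_nonneg _ _ _)) (by positivity)
    have g2 : (b * L) * ((b : ℝ) ^ L / (L : ℝ) ^ 3) = b / (L : ℝ) * ((b : ℝ) ^ L / L) := by
      field_simp
    have g4 : (b : ℝ) ^ L / M / 2 * (K / (2 * (b * L))) = 2 * c0 * ((b : ℝ) ^ L / L) := by
      rw [hc0]
      field_simp
      ring
    have g5 : (b : ℝ) ^ L / M / 2 * (K / (2 * (b * L))) ≤ (b : ℝ) ^ L / M / 2 * V :=
      mul_le_mul_of_nonneg_left hVL (by positivity)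
    have g6 : (b : ℝ) / L ≤ c0 := by
      rw [div_le_iff₀ hc00] at f3
      rw [div_le_iff₀ hLpos]
      linarith
    have g8 : (b : ℝ) / L * ((b : ℝ) ^ L / L) ≤ c0 * ((b : ℝ) ^ L / L) :=
      mul_le_mul_of_nonneg_right g6 (by positivity)
    rw [g2] at g1
    rw [g4] at g5
    rw [mul_div_assoc]
    linarith
  refine (hcount.trans hmain).trans ?_
  rw [Nat.cast_le]
  apply card_le_card
  intro n hn
  rw [mem_filter, mem_image] at hn
  obtain ⟨⟨m, _, rfl⟩, g1, g2⟩ := hn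
  have hVV : VE b N L x 1 m = VV b N L x m := by
    have := VE_add b N L x 1 m
    omega
  have hcop : (VE b N L x 1 m).Coprime (2 * b) := by
    rw [hVV]
    exact VV_cop hb hN h2 h4 m
  have hlt : VE b N L x 1 m < b ^ (2 * N + 1) := by rw [hVV]; exact VV_lt hb m
  have hne : VE b N L x 1 m ≠ 0 := (coprime_pos' hcop).ne'
  have hp : ∀ p ∈ (VE b N L x 1 m).primeFactorsList, b ^ L < p ^ (64 * c + 1) := by
    intro p hp
    have hpp := Nat.prime_of_mem_primeFactorsList hp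
    have hpd := Nat.dvd_of_mem_primeFactorsList hp
    have hz : 2 ^ 2 ^ J ≤ p := by
      by_contra hcon
      push Not at hcon
      have k1 : ¬ p ∣ 2 * b := fun hd =>
        hpp.one_lt.ne' (Nat.Coprime.eq_one_of_dvd (hcop.coprime_dvd_left hpd) hd)
      have k2 : ¬ p ∣ M := by
        intro hd
        have k3 : p ∣ a := by
          have k4 : p ∣ VE b N L x 1 m % M := (Nat.dvd_mod_iff hd).2 hpd
          rw [g1] at k4
          exact (Nat.dvd_mod_iff hd).1 k4
        exact hpp.one_lt.ne' (Nat.Coprime.eq_one_of_dvd (ha.coprime_dvd_left k3) hd)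
      have k5 : ¬ p ∣ s := by
        rw [hs]
        intro hd
        rcases (Nat.Prime.dvd_mul hpp).1 hd with h | h
        · exact k1 (h.mul_left 2)
        · exact k2 h
      refine g2 p ?_ k5 hpd
      unfold Pr
      rw [mem_filter, mem_range]
      refine ⟨hcon, hpp, ?_⟩
      have := hpp.two_le
      rcases Nat.lt_or_ge 2 p with h | h
      · omega
      · exact absurd (by rw [show p = 2 by omega]; exact dvd_mul_right 2 b) k1
    calc b ^ L ≤ (2 ^ 2 ^ J) ^ (64 * c) := hJ3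
      _ ≤ p ^ (64 * c) := Nat.pow_le_pow_left hz _
      _ < p ^ (64 * c + 1) := Nat.pow_lt_pow_right hpp.one_lt (by omega)
  rw [mem_filter, mem_range]
  refine ⟨hlt, ?_, ?_, g1, hp, fewB hb (by omega) hne hlt hp⟩
  · rw [hVV]; exact VV_pal hb hN h2 h1 m
  · rw [hVV]; exact VV_div hb hN h2 m

end Pool.Agent.Y816.PS
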